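import Pool.Agent.Y706.CH.Defs
import Pool.Agent.E8helper71.CP.Y302.CH.Glob2
import Pool.Agent.E8helper71.CP.Y302.CH.Ldx
import Pool.Agent.E8helper71.CP.Y86.CH.Loc
import Pool.Agent.E8helper71.CP.Y167.CH.Col2
import Pool.Agent.E8helper71.CP.Y708.CH.Jac
import Pool.Agent.E8helper71.CP.Y21.CH.Cov2
import Pool.Agent.E8helper71.CP.Y21.CH.Test2
import Pool.Agent.E8helper71.CP.Y824.CH.Grn2
import Pool.Agent.E8helper71.CP.Y686.CH.Lln2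
import Pool.Agent.E8helper71.CP.Y779.CH.LUP
import Pool.Agent.E8helper71.CP.Y914.BI.Tree
import Pool.Agent.E8helper71.CP.Y706.CH.FinQ

/-!
# The bound over a field with place data, in every characteristic not dividing the degree
-/

namespace Pool.Agent.E8helper71.CP

open Finset Polynomial
open Pool.Agent.Y706.CH (Crit bK vo)

universe u

lemma t_GRN2 : Y706.CH.S_GRN2.{u} := Y824.CH.t_GRN2

lemma t_LOC2 : Y706.CH.S_LOC2.{u, u, u} :=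
  Y86.CH.t_LOC2 t_GRN2 (Y779.CH.t_LUP t_GRN2)
    (Y167.CH.t_COL2 t_GRN2 (Y779.CH.t_LUP t_GRN2) (Y21.CH.t_COV2 t_GRN2) Y686.CH.t_LLN2
      Y914.BI.t_TREE (Y21.CH.t_TEST2 t_GRN2))
    (Y708.CH.t_JAC t_GRN2) (Y302.CH.LDX.t_LDX t_GRN2)

/-- **The bound over a field with place data.** -/
theorem finQ' (d Λ B : ℕ) (hd : 2 ≤ d) (hΛ : 1 ≤ Λ) (hB : 1 ≤ B) :
    ∃ N : ℕ, ∀ (k K : Type u) [Field k] [Infinite k] [Field K] [Algebra k K] [DecidableEq K],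
    (d : k) ≠ 0 → ∀ (Q : Pool.Agent.TH951.W.UB.PlaceData.{u} k K) (p q : K[X]),
    p.natDegree ≤ d → q.natDegree = d → IsCoprime p q →
    ∀ Cr : Fin (2 * d - 2) → K × K, Crit d p q Cr →
    ∀ P : Finset K, (∀ z ∈ P, q.eval z ≠ 0 ∧ p.eval z / q.eval z ∈ P) →
    ∀ (S₀ : Finset Q.Pl) (Mv : Q.Pl → ℝ) (H : ℝ), (∀ v, 0 ≤ Mv v) → (∀ v, v ∉ S₀ → Mv v = 0) →
    (∀ v i, p.coeff i ≠ 0 → -Mv v ≤ Q.ord v (p.coeff i)) →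
    (∀ v i, q.coeff i ≠ 0 → -Mv v ≤ Q.ord v (q.coeff i)) →
    ∑ v ∈ S₀, (Q.wt v : ℝ) * Mv v ≤ H → 0 < H → (Q.lossT : ℝ) ≤ Λ * H →
    (∀ M₀ : ℕ, ∃ m, M₀ ≤ m ∧ ∃ i, ∀ S : Finset Q.Pl,
      (∀ v, v ∉ S → vo (Q.ord v) ((bK d p q)^[m] (Cr i)) = 0) →
      (d : ℝ) ^ m * H ≤
        B * ∑ v ∈ S, (Q.wt v : ℝ) * (-(vo (Q.ord v) ((bK d p q)^[m] (Cr i)) : ℝ))) →
    N ≤ P.card → ∃ T ⊆ P, (d + 1) * (P \ T).card + (3 * d + 4) ≤ P.card ∧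
      ∃ α β γ : K, ∀ x ∈ T, Q.D x = α * x ^ 2 + β * x + γ :=
  Y706.CH.finQ t_LOC2 Y302.CH.t_GLOB2 d Λ B hd hΛ hB

end Pool.Agent.E8helper71.CP
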