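import Pool.Agent.E8helper71.CP.Lat

/-!
# Finite stable sets of maps which are conjugate to maps with constant coefficients
-/

namespace Pool.Agent.E8helper71.CP.Few

open Polynomial Finset
open Pool.Agent.W277.UH Pool.Agent.Y706.CH Pool.Agent.Y195.CH Pool.Agent.Y676.CH
open Pool.Agent.E8helper88.Mul
open Pool.Agent.TH951.P (cP cQ La mb cr)

universe u v

variable {k : Type v} {K : Type u} [Field k] [Field K] [Algebra k K]

/-- the conjugation relation in homogeneous form -/
lemma conj_form [Infinite K] (d : ℕ) (hd : 1 ≤ d) (f g u w : K[X]) (hf : f.natDegree ≤ d)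
    (hg : g.natDegree = d) (hco : IsCoprime f g) (hu : u.natDegree ≤ d) (hw : w.natDegree ≤ d)
    (huw : u ≠ 0 ∨ w ≠ 0) (a b c e : K) (hdet : a * e - b * c ≠ 0)
    (h : (C a * f + C b * g) * hc d w (C a * X + C b) (C c * X + C e) =
      (C c * f + C e * g) * hc d u (C a * X + C b) (C c * X + C e)) :
    ∃ τ : K, τ ≠ 0 ∧ ∀ Z, FH d u w (Ph a b c e Z) = τ • Ph a b c e (FH d f g Z) := by
  set α := C a * f + C b * g with hα
  set β := C c * f + C e * g with hβ
  set U := hc d u (C a * X + C b) (C c * X + C e) with hU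
  set W := hc d w (C a * X + C b) (C c * X + C e) with hW
  have hfα : C (a * e - b * c) * f = C e * α - C b * β := by
    rw [hα, hβ]
    simp only [C_sub, C_mul]
    ring
  have hgα : C (a * e - b * c) * g = C a * β - C c * α := by
    rw [hα, hβ]
    simp only [C_sub, C_mul]
    ring
  have hcoαβ : IsCoprime α β := by
    obtain ⟨x, y, hxy⟩ := hco
    refine ⟨C (a * e - b * c)⁻¹ * (x * C e - y * C c), C (a * e - b * c)⁻¹ * (y * C a - x * C b), ?_⟩
    have h1 : C (a * e - b * c)⁻¹ * C (a * e - b * c) = (1 : K[X]) := by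
      rw [← C_mul, inv_mul_cancel₀ hdet, C_1]
    calc C (a * e - b * c)⁻¹ * (x * C e - y * C c) * α +
          C (a * e - b * c)⁻¹ * (y * C a - x * C b) * β
        = C (a * e - b * c)⁻¹ * (x * (C e * α - C b * β) + y * (C a * β - C c * α)) := by ring
      _ = C (a * e - b * c)⁻¹ * (x * (C (a * e - b * c) * f) + y * (C (a * e - b * c) * g)) := by
          rw [hfα, hgα]
      _ = (C (a * e - b * c)⁻¹ * C (a * e - b * c)) * (x * f + y * g) := by ring
      _ = 1 := by rw [h1, hxy, one_mul]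
  have hαd : α.natDegree ≤ d := (natDegree_add_le _ _).trans
    (max_le ((natDegree_C_mul_le _ _).trans hf) ((natDegree_C_mul_le _ _).trans hg.le))
  have hβd : β.natDegree ≤ d := (natDegree_add_le _ _).trans
    (max_le ((natDegree_C_mul_le _ _).trans hf) ((natDegree_C_mul_le _ _).trans hg.le))
  have hmax : α.natDegree = d ∨ β.natDegree = d := by
    by_contra hcon
    push Not at hcon
    have h1 : (C (a * e - b * c) * g).natDegree < d := by
      rw [hgα]
      refine lt_of_le_of_lt (natDegree_sub_le _ _) (max_lt ?_ ?_)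
      · exact lt_of_le_of_lt (natDegree_C_mul_le _ _) (lt_of_le_of_ne hβd hcon.2)
      · exact lt_of_le_of_lt (natDegree_C_mul_le _ _) (lt_of_le_of_ne hαd hcon.1)
    rw [natDegree_C_mul hdet, hg] at h1
    exact lt_irrefl _ h1
  have hα0 : α ≠ 0 := by
    intro h0
    rw [h0] at hcoαβ hmax
    rw [natDegree_zero] at hmax
    have h1 := natDegree_eq_zero_of_isUnit (isCoprime_zero_left.mp hcoαβ)
    omega
  have hβ0 : β ≠ 0 := by
    intro h0
    rw [h0] at hcoαβ hmax
    rw [natDegree_zero] at hmax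
    have h1 := natDegree_eq_zero_of_isUnit (isCoprime_zero_right.mp hcoαβ)
    omega
  obtain ⟨t, ht⟩ : β ∣ W := by
    apply hcoαβ.symm.dvd_of_dvd_mul_left
    rw [h]
    exact dvd_mul_right _ _
  have hUt : U = α * t := by
    have h1 : β * (U - α * t) = 0 := by
      rw [mul_sub, ← h, ht]
      ring
    exact sub_eq_zero.mp ((mul_eq_zero.mp h1).resolve_left hβ0)
  have hnz : ∀ g' : K[X], g'.natDegree ≤ d → hc d g' (C a * X + C b) (C c * X + C e) = 0 →
      g' = 0 := by
    intro g' hg' h0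
    apply Polynomial.funext
    intro x
    rw [eval_zero]
    have h1 := hev_lin d g' a b c e (Ph e (-b) (-c) a (x, 1))
    rw [h0, Ph_adj, hev_smul, hev_one d g' hg'] at h1
    have h2 : hev d (0 : K[X]) (Ph e (-b) (-c) a (x, 1)) = 0 := by
      unfold hev
      simp
    rw [h2] at h1
    exact (mul_eq_zero.mp h1.symm).resolve_left (pow_ne_zero _ hdet)
  have ht0 : t ≠ 0 := by
    rintro rfl
    rw [mul_zero] at ht hUt
    rcases huw with h1 | h1
    · exact h1 (hnz u hu hUt)
    · exact h1 (hnz w hw ht)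
  have hdegU : U.natDegree ≤ d := by
    have := hc_degree d 1 u (C a * X + C b) (C c * X + C e) natDegree_linear_le
      natDegree_linear_le
    rwa [mul_one] at this
  have hdegW : W.natDegree ≤ d := by
    have := hc_degree d 1 w (C a * X + C b) (C c * X + C e) natDegree_linear_le
      natDegree_linear_le
    rwa [mul_one] at this
  have htd : t.natDegree = 0 := by
    rcases hmax with h1 | h1
    · rw [hUt, natDegree_mul hα0 ht0, h1] at hdegU
      omega
    · rw [ht, natDegree_mul hβ0 ht0, h1] at hdegW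
      omega
  obtain ⟨τ, hτ⟩ := natDegree_eq_zero.mp htd
  have hτ0 : τ ≠ 0 := by
    rintro rfl
    apply ht0
    rw [← hτ, C_0]
  refine ⟨τ, hτ0, fun Z => ?_⟩
  have e1 : hev d u (Ph a b c e Z) = τ * (a * hev d f Z + b * hev d g Z) := by
    rw [← hev_lin]
    change hev d U Z = _
    rw [hUt, ← hτ, mul_comm α, hev_C_mul, hα, hev_addF, hev_C_mul, hev_C_mul]
  have e2 : hev d w (Ph a b c e Z) = τ * (c * hev d f Z + e * hev d g Z) := by
    rw [← hev_lin]
    change hev d W Z = _
    rw [ht, ← hτ, mul_comm β, hev_C_mul, hβ, hev_addF, hev_C_mul, hev_C_mul]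
  exact Prod.ext e1 e2

/-- a polynomial of two different iterates -/
lemma itP_ne (d : ℕ) (hd : 2 ≤ d) (u w : K[X]) (hmax : max u.natDegree w.natDegree = d)
    (hco : IsCoprime u w) (i j : ℕ) (hij : i < j) :
    (itP d u w j).1 * (itP d u w i).2 - (itP d u w j).2 * (itP d u w i).1 ≠ 0 := by
  intro h
  have h := sub_eq_zero.mp h
  have hc1 := itP_coprime d (by omega) u w hmax hco i
  have hc2 := itP_coprime d (by omega) u w hmax hco j
  have hm1 := itP_max d (by omega) u w hmax hco i
  have hm2 := itP_max d (by omega) u w hmax hco j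
  have hlt : d ^ i < d ^ j := Nat.pow_lt_pow_right (by omega) hij
  have hpos : 0 < d ^ i := by positivity
  have d1 : (itP d u w j).1 ∣ (itP d u w i).1 := by
    apply hc2.dvd_of_dvd_mul_left
    rw [← h]
    exact dvd_mul_right _ _
  have d2 : (itP d u w j).2 ∣ (itP d u w i).2 := by
    apply hc2.symm.dvd_of_dvd_mul_left
    rw [h]
    exact dvd_mul_right _ _
  have g1 : (itP d u w i).1.natDegree ≤ d ^ i := hm1 ▸ le_max_left _ _
  have g2 : (itP d u w i).2.natDegree ≤ d ^ i := hm1 ▸ le_max_right _ _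
  rcases max_choice (itP d u w j).1.natDegree (itP d u w j).2.natDegree with hm | hm
  · rw [hm2] at hm
    by_cases h0 : (itP d u w i).1 = 0
    · rw [h0, mul_zero] at h
      have h3 : (itP d u w i).2 ≠ 0 := by
        intro h4
        rw [h0, h4] at hc1
        exact not_isCoprime_zero_zero hc1
      have h5 := (mul_eq_zero.mp h).resolve_right h3
      rw [h5, natDegree_zero] at hm
      omega
    · have := natDegree_le_of_dvd d1 h0
      omega
  · rw [hm2] at hm
    by_cases h0 : (itP d u w i).2 = 0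
    · rw [h0, mul_zero] at h
      have h3 : (itP d u w i).1 ≠ 0 := by
        intro h4
        rw [h0, h4] at hc1
        exact not_isCoprime_zero_zero hc1
      have h5 := (mul_eq_zero.mp h.symm).resolve_right h3
      rw [h5, natDegree_zero] at hm
      omega
    · have := natDegree_le_of_dvd d2 h0
      omega

theorem cross_const [IsAlgClosed k] (d : ℕ) (hd : 2 ≤ d) (f g : K[X]) (hf : f.natDegree ≤ d)
    (hg : g.natDegree = d) (hco : IsCoprime f g)
    (h : Pool.Agent.TH951.W.UH.ConjConst k f g d) (P : Finset K)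
    (hP : ∀ z ∈ P, g.eval z ≠ 0 ∧ f.eval z / g.eval z ∈ P) :
    ∀ x0 ∈ P, ∀ x1 ∈ P, ∀ x2 ∈ P, ∀ x ∈ P, ∃ s : k, algebraMap k K s = cr x0 x1 x2 x := by
  have hinf : Infinite k := IsAlgClosed.instInfinite
  have hinfK : Infinite K := Infinite.of_injective _ (algebraMap k K).injective
  obtain ⟨a, b, c, e, hdet, u, w, huw, hu, hw, hid⟩ := h
  set ι := algebraMap k K with hι
  have hu' : (u.map ι).natDegree ≤ d := natDegree_map_le.trans hu
  have hw' : (w.map ι).natDegree ≤ d := natDegree_map_le.trans hw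
  obtain ⟨τ, hτ, hcj⟩ := conj_form d (by omega) f g (u.map ι) (w.map ι) hf hg hco hu' hw'
    (huw.imp (fun h => (Polynomial.map_ne_zero_iff ι.injective).mpr h)
      (fun h => (Polynomial.map_ne_zero_iff ι.injective).mpr h)) a b c e hdet hid
  have hmaxfg : max f.natDegree g.natDegree = d := by rw [hg]; exact max_eq_right hf
  -- `u`, `w` are coprime
  have hgood : IsCoprime (u.map ι) (w.map ι) ∧
      max (u.map ι).natDegree (w.map ι).natDegree = d := by
    apply good_of_nz d _ _ hu' hw'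
    intro Z hZ h0
    set φ := algebraMap K (AlgebraicClosure K) with hφ
    have h1 := CjF_hom φ d f g (u.map ι) (w.map ι) hf hg.le hu' hw' a b c e τ hcj
      (Ph (φ e) (-φ b) (-φ c) (φ a) Z)
    rw [Ph_adj, FH_smul, h0, smul_zero] at h1
    have hdet' : φ a * φ e - φ b * φ c ≠ 0 := by
      rw [← map_mul, ← map_mul, ← map_sub]
      exact (_root_.map_ne_zero φ).mpr hdet
    have hadj : φ e * φ a - (-φ b) * (-φ c) ≠ 0 := by
      intro h'
      apply hdet'
      linear_combination h'
    have h2 := FH_nz d (by omega) (f.map φ) (g.map φ) (max_map φ f g d hmaxfg)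
      ((Polynomial.isCoprime_map φ).mpr hco) _ (Ph_ne _ _ _ _ hadj Z hZ)
    have h3 := Ph_ne _ _ _ _ hdet' _ h2
    exact smul_ne_zero ((_root_.map_ne_zero φ).mpr hτ) h3 h1.symm
  have hcouw : IsCoprime u w := (Polynomial.isCoprime_map ι).mp hgood.1
  have hmaxuw : max u.natDegree w.natDegree = d := by
    have := hgood.2
    rwa [natDegree_map, natDegree_map] at this
  -- points
  set fz : K → K := fun z => f.eval z / g.eval z with hfz
  have hstep : ∀ z ∈ P, ∀ n : ℕ, fz^[n] z ∈ P ∧ ∃ t : K, t ≠ 0 ∧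
      (FH d (u.map ι) (w.map ι))^[n] (Ph a b c e (z, 1)) = t • Ph a b c e (fz^[n] z, 1) := by
    intro z hz n
    induction n with
    | zero => exact ⟨hz, 1, one_ne_zero, by simp⟩
    | succ n ih =>
      obtain ⟨h1, t, ht, h2⟩ := ih
      rw [Function.iterate_succ_apply', Function.iterate_succ_apply']
      obtain ⟨h3, h4⟩ := hP _ h1
      refine ⟨h4, t ^ d * τ * g.eval (fz^[n] z), mul_ne_zero (mul_ne_zero (pow_ne_zero _ ht) hτ) h3,
        ?_⟩
      rw [h2, FH_smul, hcj]
      have h5 : FH d f g (fz^[n] z, 1) = g.eval (fz^[n] z) • ((fz (fz^[n] z), 1) : K × K) := by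
        unfold FH
        rw [hev_one d f hf, hev_one d g hg.le]
        refine Prod.ext ?_ ?_
        · simp only [Prod.smul_fst, smul_eq_mul, hfz]
          rw [mul_div_cancel₀ _ h3]
        · simp
      rw [h5, Ph_smul, smul_smul, smul_smul]
  have hvec : ∀ z ∈ P, ∃ (t : K) (Y : k × k), t ≠ 0 ∧ Ph a b c e (z, 1) = t • vh ι Y := by
    intro z hz
    obtain ⟨i', j', hne, heq⟩ := Finite.exists_ne_map_eq_of_infinite
      (fun n : ℕ => (⟨fz^[n] z, (hstep z hz n).1⟩ : P))
    have heq' : fz^[i'] z = fz^[j'] z := congrArg Subtype.val heq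
    obtain ⟨i, j, hij, hfij⟩ : ∃ i j, i < j ∧ fz^[i] z = fz^[j] z := by
      rcases lt_or_gt_of_ne hne with h | h
      · exact ⟨i', j', h, heq'⟩
      · exact ⟨j', i', h, heq'.symm⟩
    obtain ⟨-, t1, ht1, e1⟩ := hstep z hz i
    obtain ⟨-, t2, ht2, e2⟩ := hstep z hz j
    set Z := Ph a b c e (z, 1) with hZ
    have hZ0 : Z ≠ 0 := Ph_ne _ _ _ _ hdet _ (fun h => one_ne_zero (congrArg Prod.snd h))
    by_cases hZ2 : Z.2 = 0
    · refine ⟨Z.1, (1, 0), fun h => hZ0 (Prod.ext h hZ2), ?_⟩
      unfold vh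
      refine Prod.ext ?_ ?_
      · simp
      · simp [hZ2]
    · have hZx : Z = Z.2 • ((Z.1 / Z.2, 1) : K × K) := by
        refine Prod.ext ?_ ?_
        · simp only [Prod.smul_fst, smul_eq_mul]
          rw [mul_div_cancel₀ _ hZ2]
        · simp
      set x := Z.1 / Z.2 with hx
      have hwd : wd ((FH d (u.map ι) (w.map ι))^[j] (x, 1))
          ((FH d (u.map ι) (w.map ι))^[i] (x, 1)) = 0 := by
        have h1 : wd ((FH d (u.map ι) (w.map ι))^[j] Z) ((FH d (u.map ι) (w.map ι))^[i] Z) = 0 := by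
          rw [e1, e2, hfij, wd_smul_left', wd_smul_right', wd_self', mul_zero, mul_zero]
        rw [hZx, FH_iter_smul, FH_iter_smul, wd_smul_left', wd_smul_right'] at h1
        exact (mul_eq_zero.mp ((mul_eq_zero.mp h1).resolve_left
          (pow_ne_zero _ hZ2))).resolve_left (pow_ne_zero _ hZ2)
      have hG := itP_ne d hd u w hmaxuw hcouw i j hij
      set G := (itP d u w j).1 * (itP d u w i).2 - (itP d u w j).2 * (itP d u w i).1 with hGd
      have hroot : aeval x G = 0 := by
        rw [← itP_eval, ← itP_eval, itP_map, itP_map] at hwd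
        unfold wd at hwd
        simp only at hwd
        rw [hGd, map_sub, map_mul, map_mul]
        simp only [← eval_map_algebraMap]
        exact hwd
      have hint : IsIntegral k x := isAlgebraic_iff_isIntegral.mp ⟨G, hG, hroot⟩
      obtain ⟨s, hs'⟩ : ∃ s : k, ι s = x := minpoly.mem_range_of_degree_eq_one k x
        (IsAlgClosed.degree_eq_one_of_irreducible k (minpoly.irreducible hint))
      refine ⟨Z.2, (s, 1), hZ2, ?_⟩
      rw [hZx]
      unfold vh
      simp only [hs', map_one]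
      simp
  intro x0 h0 x1 h1 x2 h2 x hx
  obtain ⟨t0, Y0, ht0, e0⟩ := hvec x0 h0
  obtain ⟨t1, Y1, ht1, e1⟩ := hvec x1 h1
  obtain ⟨t2, Y2, ht2, e2⟩ := hvec x2 h2
  obtain ⟨t, Y, ht, e3⟩ := hvec x hx
  have key : ∀ (x y tx ty : K) (X' Y' : k × k), Ph a b c e (x, 1) = tx • vh ι X' →
      Ph a b c e (y, 1) = ty • vh ι Y' → (a * e - b * c) * (x - y) = tx * ty * ι (wd X' Y') := by
    intro x y tx ty X' Y' h1 h2
    have h3 := wd_Ph a b c e ((x, 1) : K × K) (y, 1)
    rw [h1, h2, wd_smul_left', wd_smul_right', wd_hom] at h3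
    have h4 : wd ((x, 1) : K × K) (y, 1) = x - y := by
      unfold wd
      simp
    rw [h4] at h3
    rw [← h3]
    ring
  refine ⟨wd Y Y0 * wd Y1 Y2 / (wd Y Y2 * wd Y1 Y0), ?_⟩
  have k1 := key x x0 t t0 Y Y0 e3 e0
  have k2 := key x1 x2 t1 t2 Y1 Y2 e1 e2
  have k3 := key x x2 t t2 Y Y2 e3 e2
  have k4 := key x1 x0 t1 t0 Y1 Y0 e1 e0
  unfold cr
  rw [map_div₀, map_mul, map_mul]
  have m1 : x - x0 = t * t0 * ι (wd Y Y0) / (a * e - b * c) := by
    rw [← k1, mul_div_cancel_left₀ _ hdet]
  have m2 : x1 - x2 = t1 * t2 * ι (wd Y1 Y2) / (a * e - b * c) := by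
    rw [← k2, mul_div_cancel_left₀ _ hdet]
  have m3 : x - x2 = t * t2 * ι (wd Y Y2) / (a * e - b * c) := by
    rw [← k3, mul_div_cancel_left₀ _ hdet]
  have m4 : x1 - x0 = t1 * t0 * ι (wd Y1 Y0) / (a * e - b * c) := by
    rw [← k4, mul_div_cancel_left₀ _ hdet]
  rw [m1, m2, m3, m4]
  field_simp

end Pool.Agent.E8helper71.CP.Few
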