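import Pool.Agent.TH951.P.Chain

/-!
# Algebra for the descent to the field generated by cross ratios
-/

namespace Pool.Agent.E8helper71.CP.Few

open Pool.Agent.TH951.P
open Pool.Agent.TH951.W.UB Pool.Agent.TH951.W.UG Pool.Agent.TH951.W.UH Finset Polynomial

section Mob

variable {K : Type*} [Field K]

/-- auxiliary -/
noncomputable def mT (y0 y1 y2 c : K) : K := (y1 - y2) - c * (y1 - y0)
/-- the pole -/
noncomputable def mM (y0 y1 y2 c : K) : K := (y0 * (y1 - y2) - c * y2 * (y1 - y0)) / mT y0 y1 y2 c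
/-- the multiplier -/
noncomputable def mL (y0 y1 y2 c : K) : K := (y1 - y0) * (mM y0 y1 y2 c - y2) / mT y0 y1 y2 c
/-- the value at infinity -/
noncomputable def mN (y0 y1 y2 c : K) : K := (y1 - y0) / mT y0 y1 y2 c

variable {y0 y1 y2 c : K}

lemma mM_sub (hT : mT y0 y1 y2 c ≠ 0) :
    mM y0 y1 y2 c - y2 = (y1 - y2) * (y0 - y2) / mT y0 y1 y2 c := by
  unfold mM
  rw [eq_div_iff hT, sub_mul, div_mul_cancel₀ _ hT]
  unfold mT
  ring

lemma mM_ne (h02 : y0 ≠ y2) (h12 : y1 ≠ y2) (hT : mT y0 y1 y2 c ≠ 0) : mM y0 y1 y2 c ≠ y2 := by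
  rw [← sub_ne_zero, mM_sub hT]
  exact div_ne_zero (mul_ne_zero (sub_ne_zero.mpr h12) (sub_ne_zero.mpr h02)) hT

lemma mL_ne (h01 : y0 ≠ y1) (h02 : y0 ≠ y2) (h12 : y1 ≠ y2) (hT : mT y0 y1 y2 c ≠ 0) :
    mL y0 y1 y2 c ≠ 0 :=
  div_ne_zero (mul_ne_zero (sub_ne_zero.mpr h01.symm) (sub_ne_zero.mpr (mM_ne h02 h12 hT))) hT

lemma cr_sub (h01 : y0 ≠ y1) (hT : mT y0 y1 y2 c ≠ 0) {y : K} (hy : y ≠ y2) :
    cr y0 y1 y2 y - c = mT y0 y1 y2 c * (y - mM y0 y1 y2 c) / ((y - y2) * (y1 - y0)) := by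
  have h1 := sub_ne_zero.mpr h01.symm
  have h2 := sub_ne_zero.mpr hy
  have h3 : mT y0 y1 y2 c * (y - mM y0 y1 y2 c) =
      (y - y0) * (y1 - y2) - c * ((y - y2) * (y1 - y0)) := by
    unfold mM
    rw [mul_sub, mul_div_cancel₀ _ hT]
    unfold mT
    ring
  rw [h3]
  unfold cr
  field_simp

lemma cr_mM (h01 : y0 ≠ y1) (h02 : y0 ≠ y2) (h12 : y1 ≠ y2) (hT : mT y0 y1 y2 c ≠ 0) :
    cr y0 y1 y2 (mM y0 y1 y2 c) = c := by
  have h := cr_sub h01 hT (mM_ne h02 h12 hT)
  rw [sub_self, mul_zero, zero_div] at h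
  exact sub_eq_zero.mp h

lemma mb_psi (h01 : y0 ≠ y1) (hT : mT y0 y1 y2 c ≠ 0) {y : K} (hy : y ≠ y2)
    (hm : y ≠ mM y0 y1 y2 c) :
    mb (mM y0 y1 y2 c) (mL y0 y1 y2 c) (mN y0 y1 y2 c) y = (cr y0 y1 y2 y - c)⁻¹ := by
  have h1 := sub_ne_zero.mpr h01.symm
  have h2 := sub_ne_zero.mpr hy
  have h3 := sub_ne_zero.mpr hm
  rw [cr_sub h01 hT hy, inv_div]
  unfold mb mL mN
  rw [div_div, div_add_div _ _ hT (mul_ne_zero hT h3), div_eq_div_iff
    (mul_ne_zero hT (mul_ne_zero hT h3)) (mul_ne_zero hT h3)]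
  ring

lemma mb_psi2 (h02 : y0 ≠ y2) (h12 : y1 ≠ y2) (hT : mT y0 y1 y2 c ≠ 0) :
    mb (mM y0 y1 y2 c) (mL y0 y1 y2 c) (mN y0 y1 y2 c) y2 = 0 := by
  have h3 := sub_ne_zero.mpr (mM_ne h02 h12 hT).symm
  unfold mb mL mN
  rw [div_div, div_add_div _ _ hT (mul_ne_zero hT h3), div_eq_zero_iff]
  left
  ring

variable {L : Type*} [Field L] (φ : K →+* L)

lemma mT_map : φ (mT y0 y1 y2 c) = mT (φ y0) (φ y1) (φ y2) (φ c) := by simp [mT]
lemma mM_map : φ (mM y0 y1 y2 c) = mM (φ y0) (φ y1) (φ y2) (φ c) := by simp [mM, mT]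
lemma mL_map : φ (mL y0 y1 y2 c) = mL (φ y0) (φ y1) (φ y2) (φ c) := by simp [mL, mT, mM]
lemma mN_map : φ (mN y0 y1 y2 c) = mN (φ y0) (φ y1) (φ y2) (φ c) := by simp [mN, mT]
lemma cr_map {y : K} : φ (cr y0 y1 y2 y) = cr (φ y0) (φ y1) (φ y2) (φ y) := by simp [cr]
lemma mb_map {m lam ν y : K} : φ (mb m lam ν y) = mb (φ m) (φ lam) (φ ν) (φ y) := by simp [mb]

end Mob

/-- a monic rational function with enough rational values is rational -/
lemma descend {E L : Type*} [Field E] [Field L] [Algebra E L] (d : ℕ) (p q : L[X])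
    (hp : p.natDegree ≤ d) (hq : q.natDegree = d) (hmon : q.Monic) (hco : IsCoprime p q)
    (P : Finset L) (hP : ∀ z ∈ P, (∃ s : E, algebraMap E L s = z) ∧ q.eval z ≠ 0 ∧
      ∃ s : E, algebraMap E L s = p.eval z / q.eval z) (hc : 2 * d + 1 ≤ P.card) :
    ∃ p' q' : E[X], p'.map (algebraMap E L) = p ∧ q'.map (algebraMap E L) = q := by
  obtain ⟨l, hl⟩ := LinearMap.exists_leftInverse_of_injective (Algebra.linearMap E L)
    (LinearMap.ker_eq_bot.mpr (algebraMap E L).injective)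
  have hl1 : ∀ s : E, l (algebraMap E L s) = s := fun s => LinearMap.congr_fun hl s
  have hw : (lpoly l d q).Monic := by
    have h1 : (lpoly l d q).coeff d = 1 := by
      rw [lpoly_coeff l d q d le_rfl]
      have h2 : q.coeff d = 1 := by rw [← hq]; exact hmon
      rw [h2, ← map_one (algebraMap E L)]
      exact hl1 1
    exact monic_of_natDegree_le_of_coeff_eq_one d (lpoly_degree l d q) h1
  have hwd : (lpoly l d q).natDegree = d := by
    apply le_antisymm (lpoly_degree l d q)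
    apply le_natDegree_of_ne_zero
    rw [lpoly_coeff l d q d le_rfl]
    have h2 : q.coeff d = 1 := by rw [← hq]; exact hmon
    rw [h2, ← map_one (algebraMap E L), hl1]
    exact one_ne_zero
  set u := (lpoly l d p).map (algebraMap E L) with hu
  set w := (lpoly l d q).map (algebraMap E L) with hw'
  have hkey : u * q = w * p := by
    have h0 : u * q - w * p = 0 := by
      apply eq_zero_of_natDegree_lt_card_of_eval_eq_zero' _ P
      · intro z hz
        obtain ⟨⟨s, rfl⟩, hqz, t, ht⟩ := hP z hz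
        have e1 : u.eval (algebraMap E L s) = algebraMap E L (l (p.eval (algebraMap E L s))) := by
          rw [hu, eval_map_apply, lpoly_eval l d p hp]
        have e2 : w.eval (algebraMap E L s) = algebraMap E L (l (q.eval (algebraMap E L s))) := by
          rw [hw', eval_map_apply, lpoly_eval l d q hq.le]
        have e3 : p.eval (algebraMap E L s) = t • q.eval (algebraMap E L s) := by
          rw [Algebra.smul_def, ht, div_mul_cancel₀ _ hqz]
        rw [eval_sub, eval_mul, eval_mul, e1, e2, e3, map_smul, smul_eq_mul, map_mul,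
          Algebra.smul_def]
        ring
      · refine lt_of_le_of_lt (natDegree_sub_le _ _) (max_lt ?_ ?_)
        · refine lt_of_le_of_lt natDegree_mul_le ?_
          have h1 : u.natDegree ≤ d := natDegree_map_le.trans (lpoly_degree l d p)
          omega
        · refine lt_of_le_of_lt natDegree_mul_le ?_
          have h1 : w.natDegree ≤ d := natDegree_map_le.trans (lpoly_degree l d q)
          omega
    exact sub_eq_zero.mp h0
  have hwm : w.Monic := hw.map _
  have hqw : q ∣ w := by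
    apply hco.symm.dvd_of_dvd_mul_right
    rw [← hkey]
    exact dvd_mul_left q u
  have hwq : w = q := by
    obtain ⟨r, hr⟩ := hqw
    have hwd' : w.natDegree = d := by rw [hw', natDegree_map, hwd]
    have hr0 : r ≠ 0 := by
      rintro rfl
      rw [mul_zero] at hr
      exact hwm.ne_zero hr
    have h1 : r.natDegree = 0 := by
      have h2 := congrArg natDegree hr
      rw [natDegree_mul hmon.ne_zero hr0, hwd', hq] at h2
      omega
    have h3 : r.Monic := by
      have h4 := hwm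
      rw [hr] at h4
      exact hmon.of_mul_monic_left h4
    have h5 : r = 1 := h3.natDegree_eq_zero.mp h1
    rw [hr, h5, mul_one]
  refine ⟨lpoly l d p, lpoly l d q, ?_, hwq⟩
  rw [hwq] at hkey
  have h6 : (u - p) * q = 0 := by
    rw [sub_mul, hkey]
    ring
  exact sub_eq_zero.mp ((mul_eq_zero.mp h6).resolve_right hmon.ne_zero)

end Pool.Agent.E8helper71.CP.Few
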