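import Pool.Agent.E8helper71.CP.Few1
import Pool.Agent.E8helper71.CP.Few2
import Pool.Agent.Y706.SB.Stm
import Pool.Agent.W277.UD.Prim

/-!
# Few levels: one block
-/

namespace Pool.Agent.E8helper71.CP.Few

open Pool.Agent.TH951.P
open Pool.Agent.TH951.W.UB Pool.Agent.TH951.W.UG Pool.Agent.TH951.W.UH Finset Polynomial

universe u

/-- a small generating set -/
lemma small_gen {F E : Type*} [Field F] [Field E] [Algebra F E] [FiniteDimensional F E]
    (P : Set E) (hP : IntermediateField.adjoin F P = ⊤) :
    ∃ T : Finset E, (T : Set E) ⊆ P ∧ T.card ≤ Module.finrank F E ∧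
      IntermediateField.adjoin F (T : Set E) = ⊤ := by
  classical
  have key : ∀ m : ℕ, ∃ T : Finset E, (T : Set E) ⊆ P ∧ T.card ≤ m ∧
      (IntermediateField.adjoin F (T : Set E) = ⊤ ∨
        m + 1 ≤ Module.finrank F (IntermediateField.adjoin F (T : Set E))) := by
    intro m
    induction m with
    | zero =>
      refine ⟨∅, by simp, by simp, Or.inr ?_⟩
      have : 0 < Module.finrank F (IntermediateField.adjoin F ((∅ : Finset E) : Set E)) :=
        Module.finrank_pos
      omega
    | succ m ih =>
      obtain ⟨T, hT, hc, h⟩ := ih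
      rcases h with h | h
      · exact ⟨T, hT, hc.trans (Nat.le_succ m), Or.inl h⟩
      · by_cases htop : IntermediateField.adjoin F (T : Set E) = ⊤
        · exact ⟨T, hT, hc.trans (Nat.le_succ m), Or.inl htop⟩
        · obtain ⟨x, hxP, hx⟩ : ∃ x ∈ P, x ∉ IntermediateField.adjoin F (T : Set E) := by
            by_contra hcon
            push Not at hcon
            apply htop
            rw [eq_top_iff, ← hP]
            exact IntermediateField.adjoin_le_iff.mpr hcon
          refine ⟨insert x T, ?_, ?_, Or.inr ?_⟩
          · rw [Finset.coe_insert]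
            exact Set.insert_subset hxP hT
          · exact (Finset.card_insert_le _ _).trans (Nat.succ_le_succ hc)
          · have hle : IntermediateField.adjoin F (T : Set E) ≤
                IntermediateField.adjoin F ((insert x T : Finset E) : Set E) :=
              IntermediateField.adjoin.mono _ _ _ (by
                rw [Finset.coe_insert]
                exact Set.subset_insert _ _)
            by_contra hlt
            have h1 := IntermediateField.eq_of_le_of_finrank_le hle (by omega)
            apply hx
            rw [h1]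
            exact IntermediateField.subset_adjoin _ _ (by simp)
  obtain ⟨T, hT, hc, h⟩ := key (Module.finrank F E)
  refine ⟨T, hT, hc, ?_⟩
  rcases h with h | h
  · exact h
  · exfalso
    have h1 : Module.finrank F (IntermediateField.adjoin F (T : Set E)) ≤ Module.finrank F E :=
      Submodule.finrank_le (IntermediateField.adjoin F (T : Set E)).toSubalgebra.toSubmodule
    omega

/-- place data with small loss, with a few generators -/
lemma exists_Q (hLB : Pool.Agent.Y706.SB.S_LB.{u, u}) (p : ℕ) [Fact p.Prime] {k E : Type u}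
    [Field k] [IsAlgClosed k] [CharP k p] [Field E] [CharP E p] [Algebra k E]
    [Algebra (RatFunc k) E] [IsScalarTower k (RatFunc k) E] [FiniteDimensional (RatFunc k) E]
    [Algebra.IsSeparable (RatFunc k) E] (W : Set E)
    (hW : IntermediateField.adjoin (RatFunc k) W = ⊤) (z : E) (hz : z ∈ W)
    (hzc : ∀ c : k, z ≠ algebraMap k E c) :
    ∃ (U : Finset E) (Q : PlaceData.{u} k E), (U : Set E) ⊆ W ∧
      U.card ≤ Module.finrank (RatFunc k) E + 1 ∧ (∀ x, Q.D x = 0 → ∃ y, y ^ p = x) ∧
      ∀ S : Finset Q.Pl, (∀ v, v ∉ S → ∀ u ∈ U, Q.pole v u = 0) →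
        Q.lossT ≤ (8 * Module.finrank (RatFunc k) E ^ 3 : ℕ) *
          ∑ v ∈ S, Q.wt v * ∑ u ∈ U, Q.pole v u := by
  classical
  obtain ⟨T, hTW, hTc, hTg⟩ := small_gen W hW
  set U := insert z T with hU
  have hUW : (U : Set E) ⊆ W := by
    rw [hU, Finset.coe_insert]
    exact Set.insert_subset hz hTW
  have hUg : IntermediateField.adjoin (RatFunc k) (U : Set E) = ⊤ := by
    rw [eq_top_iff, ← hTg]
    apply IntermediateField.adjoin.mono
    rw [hU, Finset.coe_insert]
    exact Set.subset_insert _ _
  obtain ⟨u, huU, hug, huc⟩ := Pool.Agent.W277.UD.exists_gen (k := k) (F := RatFunc k)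
    (E := E) (U : Set E) hUg z (by rw [hU]; simp) hzc
  obtain ⟨Q, hker, hQ⟩ := hLB p k E u hug huc
  refine ⟨U, Q, hUW, (Finset.card_insert_le _ _).trans (Nat.succ_le_succ hTc), hker, ?_⟩
  have hu0 : u ≠ 0 := by
    have := huc 0
    rwa [map_zero] at this
  have hpole : ∀ v, Q.pole v u ≤ ∑ u' ∈ U, Q.pole v u' := by
    intro v
    have hspan : ∀ x : E, x ∈ Submodule.span k (U : Set E) →
        Q.G v (-∑ u' ∈ U, Q.pole v u') x := by
      intro x hx
      induction hx using Submodule.span_induction with
      | mem x hx =>
        intro hx0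
        have h2 : Q.pole v x ≤ ∑ u' ∈ U, Q.pole v u' :=
          Finset.single_le_sum (f := fun u' => Q.pole v u')
            (fun u' _ => PlaceData.pole_nonneg v u') hx
        rw [PlaceData.pole_of_ne hx0] at h2
        have h3 := le_max_right 0 (-Q.ord v x)
        linarith
      | zero => exact PlaceData.G_zero
      | add x y _ _ hx hy => exact PlaceData.G_add hx hy
      | smul c x _ hx =>
        rw [Algebra.smul_def]
        simpa using PlaceData.G_mul (PlaceData.G_alg (Q := Q) (v := v) c) hx
    exact PlaceData.pole_le_of_G (Finset.sum_nonneg fun u' _ => PlaceData.pole_nonneg v u')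
      (hspan u huU)
  intro S hS
  have hSu : ∀ v, v ∉ S → Q.pole v u = 0 := by
    intro v hv
    have h1 := hpole v
    rw [Finset.sum_eq_zero (hS v hv)] at h1
    exact le_antisymm h1 (PlaceData.pole_nonneg v u)
  refine (hQ S hSu).trans ?_
  push_cast
  apply mul_le_mul_of_nonneg_left _ (by positivity)
  exact Finset.sum_le_sum fun v _ => mul_le_mul_of_nonneg_left (hpole v) (Q.wt_nonneg v)

end Pool.Agent.E8helper71.CP.Few
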