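import Pool.Agent.E8helper71.CP.Few3

/-!
# Few levels: one block
-/

namespace Pool.Agent.E8helper71.CP.Few

open Pool.Agent.TH951.P
open Pool.Agent.TH951.W.UB Pool.Agent.TH951.W.UG Pool.Agent.TH951.W.UH Finset Polynomial

universe u

lemma itf (L : Type*) [Field L] (p : ℕ) [ExpChar L p] (n : ℕ) (x : L) :
    iterateFrobenius L p n x = x ^ p ^ n := iterateFrobenius_def p n x

set_option maxHeartbeats 4000000 in
theorem block (hLB : Pool.Agent.Y706.SB.S_LB.{u, u}) {n d : ℕ} (hd : 2 ≤ d) (p : ℕ)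
    [hp : Fact p.Prime] {k L : Type u}
    [Field k] [IsAlgClosed k] [CharP k p] [Field L] [DecidableEq L] [CharP L p] [ExpChar L p]
    [Algebra k L] [Algebra (RatFunc k) L] [IsScalarTower k (RatFunc k) L]
    [FiniteDimensional (RatFunc k) L] [Algebra.IsSeparable (RatFunc k) L]
    (hn : Module.finrank (RatFunc k) L ≤ n) (E : IntermediateField (RatFunc k) L)
    (e b a₀ : ℕ) (hbe : b ≤ e) (ha₀ : nn d * (8 * ((8 * n ^ 3) * (n + 1)) + 1) < p ^ a₀)
    (p₁ q₁ : L[X]) (hp₁ : p₁.natDegree ≤ d) (hq₁ : q₁.natDegree = d) (hco : IsCoprime p₁ q₁)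
    (P P₁ : Finset L)
    (hP : ∀ z ∈ P, (q₁.map (iterateFrobenius L p e)).eval z ≠ 0 ∧
      (p₁.map (iterateFrobenius L p e)).eval z / (q₁.map (iterateFrobenius L p e)).eval z ∈ P)
    (hP₁ : ∀ z ∈ P₁, q₁.eval z ≠ 0 ∧ p₁.eval z / q₁.eval z ∈ P₁)
    (hPP : ∀ y ∈ P₁, iterateFrobenius L p e y ∈ P) (hcard : N₃ d ≤ P₁.card)
    (y0 y1 y2 y3 : L) (h0 : y0 ∈ P₁) (h1 : y1 ∈ P₁) (h2 : y2 ∈ P₁) (h3 : y3 ∈ P₁)
    (h01 : y0 ≠ y1) (h02 : y0 ≠ y2) (h12 : y1 ≠ y2) (h32 : y3 ≠ y2) (h30 : y3 ≠ y0)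
    (hy3 : ∀ c : k, cr y0 y1 y2 y3 ≠ algebraMap k L c)
    (hE0 : ∀ y ∈ P₁, y ≠ y2 → cr y0 y1 y2 y ∈ E) (W : Set L)
    (hWE : IntermediateField.adjoin (RatFunc k) W = E) (hy3W : cr y0 y1 y2 y3 ∈ W)
    (hW : ∀ u ∈ W, ∃ b', b ≤ b' ∧ ∃ x ∈ P, x ≠ iterateFrobenius L p e y2 ∧ u ^ p ^ b' =
      cr (iterateFrobenius L p e y0) (iterateFrobenius L p e y1) (iterateFrobenius L p e y2) x)
    (i : Fin (nn d) → ℕ) (x : Fin (nn d) → L) (hi : ∀ j, i j + a₀ ≤ b)
    (hij : ∀ j j', j' < j → i j < i j') (hx : ∀ j, ∀ y, y ^ p ≠ x j)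
    (hxP : ∀ j, x j ^ p ^ i j ∈ P)
    (hxE : ∀ j, cr (iterateFrobenius L p (e - i j) y0) (iterateFrobenius L p (e - i j) y1)
      (iterateFrobenius L p (e - i j) y2) (x j) ∈ E) : False := by
  classical
  have hdd : N₃ d ≥ 3 * d + 4 := by
    unfold N₃
    omega
  set φ := iterateFrobenius L p e with hφ
  have hinf : Infinite k := IsAlgClosed.instInfinite
  have hinfL : Infinite L := Infinite.of_injective _ (algebraMap k L).injective
  have hkL : ∀ c : k, algebraMap k L c ∈ E := by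
    intro c
    rw [IsScalarTower.algebraMap_apply k (RatFunc k) L]
    exact E.algebraMap_mem _
  -- the choice of `c`
  have hX : p₁ - X * q₁ ≠ 0 := by
    intro h
    have h1 : p₁ = X * q₁ := sub_eq_zero.mp h
    have hq0 : q₁ ≠ 0 := by
      rintro rfl
      rw [natDegree_zero] at hq₁
      omega
    rw [h1, natDegree_X_mul hq0, hq₁] at hp₁
    omega
  set excl : Finset L := {(y1 - y2) / (y1 - y0)} ∪ (P₁.image (cr y0 y1 y2)) ∪
    ((p₁ - X * q₁).roots.toFinset.image (cr y0 y1 y2)) with hexcl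
  set exclP : Finset L := P.image (cr (φ y0) (φ y1) (φ y2)) with hexclP
  obtain ⟨c₀, hc₀⟩ := Infinite.exists_notMem_finset
    ((excl.preimage (algebraMap k L) (algebraMap k L).injective.injOn) ∪
      (exclP.preimage (fun c => φ (algebraMap k L c))
        (φ.injective.comp (algebraMap k L).injective).injOn))
  rw [Finset.mem_union, Finset.mem_preimage, Finset.mem_preimage, not_or] at hc₀
  set c : L := algebraMap k L c₀ with hc
  obtain ⟨hc1, hc2⟩ := hc₀
  rw [hexcl, Finset.mem_union, Finset.mem_union, not_or, not_or, Finset.mem_singleton] at hc1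
  have n10 := sub_ne_zero.mpr h01.symm
  have hT : mT y0 y1 y2 c ≠ 0 := by
    intro h
    apply hc1.1.1
    rw [eq_div_iff n10]
    unfold mT at h
    exact (sub_eq_zero.mp h).symm
  set m := mM y0 y1 y2 c with hm
  set lam := mL y0 y1 y2 c with hlamd
  set ν := mN y0 y1 y2 c with hν
  have hlam : lam ≠ 0 := mL_ne h01 h02 h12 hT
  have hcrm : cr y0 y1 y2 m = c := cr_mM h01 h02 h12 hT
  have hm1 : ∀ y ∈ P₁, y ≠ m := by
    intro y hy h
    apply hc1.1.2
    rw [← hcrm, ← h]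
    exact Finset.mem_image_of_mem _ hy
  have hmP : ∀ y ∈ P, y ≠ φ m := by
    intro y hy h
    apply hc2
    show φ c ∈ exclP
    rw [← hcrm, cr_map φ, ← h]
    exact Finset.mem_image_of_mem _ hy
  have hmf : p₁.eval m ≠ m * q₁.eval m := by
    intro h
    apply hc1.2
    rw [← hcrm]
    apply Finset.mem_image_of_mem
    rw [Multiset.mem_toFinset, mem_roots hX, IsRoot.def, eval_sub, eval_mul, eval_X, h, sub_self]
  have hcE : c ∈ E := hkL c₀
  -- the scaling
  set s : L := ((cQ d 1 m lam ν p₁ q₁).leadingCoeff)⁻¹ with hs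
  have hcQ1 : (cQ d 1 m lam ν p₁ q₁).natDegree = d :=
    cQ_degree hp₁ hq₁.le one_ne_zero hlam hmf
  have hcQ0 : cQ d 1 m lam ν p₁ q₁ ≠ 0 := by
    intro h
    rw [h, natDegree_zero] at hcQ1
    omega
  have hs0 : s ≠ 0 := inv_ne_zero (leadingCoeff_ne_zero.mpr hcQ0)
  have hcQs : cQ d s m lam ν p₁ q₁ = C s * cQ d 1 m lam ν p₁ q₁ := by
    unfold cQ
    rw [C_1, one_mul]
  set pp := cP d s m lam ν p₁ q₁ with hpp
  set qq := cQ d s m lam ν p₁ q₁ with hqq
  have hqm : qq.Monic := by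
    rw [hcQs, Monic, leadingCoeff_mul, leadingCoeff_C, hs,
      inv_mul_cancel₀ (leadingCoeff_ne_zero.mpr hcQ0)]
  have hppd : pp.natDegree ≤ d := cP_degree hlam
  have hqqd : qq.natDegree = d := cQ_degree hp₁ hq₁.le hs0 hlam hmf
  have hcoq : IsCoprime pp qq := c_coprime (by omega) hp₁ hq₁ hco hs0 hlam
  -- points
  have hmbE : ∀ y ∈ P₁, mb m lam ν y ∈ E := by
    intro y hy
    by_cases hy2 : y = y2
    · rw [hy2, mb_psi2 h02 h12 hT]
      exact E.zero_mem
    · rw [mb_psi h01 hT hy2 (hm1 y hy)]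
      exact E.inv_mem (E.sub_mem (hE0 y hy hy2) hcE)
  set P₁' : Finset L := P₁.image (mb m lam ν) with hP₁'
  have hinj1 : Set.InjOn (mb m lam ν) (P₁ : Set L) := fun a ha b hb h =>
    mb_inj hlam (hm1 a ha) (hm1 b hb) h
  have hcard' : P₁'.card = P₁.card := Finset.card_image_of_injOn hinj1
  have hst1 : ∀ z ∈ P₁', qq.eval z ≠ 0 ∧ pp.eval z / qq.eval z ∈ P₁' := by
    intro z hz
    obtain ⟨y, hy, rfl⟩ := Finset.mem_image.mp hz
    obtain ⟨g1, g2⟩ := hP₁ y hy
    obtain ⟨e1, e2⟩ := c_eval (d := d) (s := s) (m := m) (lam := lam) (ν := ν) hp₁ hq₁.le hs0 hlam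
      (x := y) (hm1 y hy) g1 (hm1 _ g2)
    refine ⟨e1, ?_⟩
    rw [e2]
    exact Finset.mem_image_of_mem _ g2
  have hP₁E : ∀ z ∈ P₁', z ∈ E := by
    intro z hz
    obtain ⟨y, hy, rfl⟩ := Finset.mem_image.mp hz
    exact hmbE y hy
  obtain ⟨p', q', hp', hq'⟩ := descend (E := E) d pp qq hppd hqqd hqm hcoq P₁' (by
    intro z hz
    exact ⟨⟨⟨z, hP₁E z hz⟩, rfl⟩, (hst1 z hz).1, ⟨⟨_, hP₁E _ (hst1 z hz).2⟩, rfl⟩⟩) (by
    rw [hcard']
    omega)
  have hst' : IsScalarTower k E L := IsScalarTower.of_algebraMap_eq fun c => rfl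
  haveI : CharP E p := (RingHom.charP_iff (algebraMap k E) (algebraMap k E).injective p).mp
    inferInstance
  haveI : ExpChar E p := ExpChar.prime hp.out
  have hinfE : Infinite E := Infinite.of_injective _ (algebraMap k E).injective
  have hιi : Function.Injective (algebraMap E L) := (algebraMap E L).injective
  have hφE : ∀ z : E, algebraMap E L (iterateFrobenius E p e z) = φ (algebraMap E L z) := by
    intro z
    rw [hφ, itf, itf, map_pow]
  set PE₁ : Finset E := P₁'.preimage (algebraMap E L) hιi.injOn with hPE₁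
  set P' : Finset L := P.image (mb (φ m) (φ lam) (φ ν)) with hP'
  set PE : Finset E := P'.preimage (algebraMap E L) hιi.injOn with hPE
  have hmemE₁ : ∀ z : E, z ∈ PE₁ ↔ algebraMap E L z ∈ P₁' := fun z => Finset.mem_preimage
  have hmemE : ∀ z : E, z ∈ PE ↔ algebraMap E L z ∈ P' := fun z => Finset.mem_preimage
  have hcardE : PE₁.card = P₁.card := by
    rw [← hcard']
    have h1 : PE₁.image (algebraMap E L) = P₁' := by
      ext z
      rw [Finset.mem_image]
      constructor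
      · rintro ⟨w, hw, rfl⟩
        exact (hmemE₁ w).mp hw
      · intro hz
        exact ⟨⟨z, hP₁E z hz⟩, (hmemE₁ _).mpr hz, rfl⟩
    rw [← h1, Finset.card_image_of_injective _ hιi]
  -- the twisted map
  have hφlam : φ lam ≠ 0 := (_root_.map_ne_zero φ).mpr hlam
  have hφs : φ s ≠ 0 := (_root_.map_ne_zero φ).mpr hs0
  have hstP : ∀ z ∈ P', (qq.map φ).eval z ≠ 0 ∧ (pp.map φ).eval z / (qq.map φ).eval z ∈ P' := by
    intro z hz
    obtain ⟨y, hy, rfl⟩ := Finset.mem_image.mp hz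
    obtain ⟨g1, g2⟩ := hP y hy
    have hPd : (p₁.map φ).natDegree ≤ d := natDegree_map_le.trans hp₁
    have hRd : (q₁.map φ).natDegree ≤ d := natDegree_map_le.trans hq₁.le
    obtain ⟨e1, e2⟩ := c_eval (d := d) (s := φ s) (m := φ m) (lam := φ lam) (ν := φ ν) hPd hRd hφs
      hφlam (x := y) (hmP y hy) g1 (hmP _ g2)
    rw [cQ_map, cP_map] at e2
    rw [cQ_map] at e1
    refine ⟨e1, ?_⟩
    rw [e2]
    exact Finset.mem_image_of_mem _ g2
  have hmapφ : ∀ (g : L[X]) (g' : E[X]), g'.map (algebraMap E L) = g → ∀ z : E,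
      (g.map φ).eval (algebraMap E L z) =
        algebraMap E L ((g'.map (iterateFrobenius E p e)).eval z) := by
    intro g g' hg z
    rw [← hg, Polynomial.map_map]
    have h1 : φ.comp (algebraMap E L) = (algebraMap E L).comp (iterateFrobenius E p e) := by
      ext w
      exact (hφE w).symm
    rw [h1, ← Polynomial.map_map, eval_map_apply]
  have hmap1 : ∀ (g : L[X]) (g' : E[X]), g'.map (algebraMap E L) = g → ∀ z : E,
      g.eval (algebraMap E L z) = algebraMap E L (g'.eval z) := by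
    intro g g' hg z
    rw [← hg, eval_map_apply]
  have hp'd : p'.natDegree ≤ d := by
    rw [← hp', natDegree_map] at hppd
    exact hppd
  have hq'd : q'.natDegree = d := by
    rw [← hq', natDegree_map] at hqqd
    exact hqqd
  have hco' : IsCoprime p' q' := by
    rw [← Polynomial.isCoprime_map (algebraMap E L), hp', hq']
    exact hcoq
  have hstE₁ : ∀ z ∈ PE₁, q'.eval z ≠ 0 ∧ p'.eval z / q'.eval z ∈ PE₁ := by
    intro z hz
    obtain ⟨g1, g2⟩ := hst1 _ ((hmemE₁ z).mp hz)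
    rw [hmap1 qq q' hq' z] at g1 g2
    rw [hmap1 pp p' hp' z, ← map_div₀] at g2
    exact ⟨fun h => g1 (by rw [h, map_zero]), (hmemE₁ _).mpr g2⟩
  have hstE : ∀ z ∈ PE, (q'.map (iterateFrobenius E p e)).eval z ≠ 0 ∧
      (p'.map (iterateFrobenius E p e)).eval z / (q'.map (iterateFrobenius E p e)).eval z ∈ PE := by
    intro z hz
    obtain ⟨g1, g2⟩ := hstP _ ((hmemE z).mp hz)
    rw [hmapφ qq q' hq' z] at g1 g2
    rw [hmapφ pp p' hp' z, ← map_div₀] at g2
    exact ⟨fun h => g1 (by rw [h, map_zero]), (hmemE _).mpr g2⟩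
  have hPPE : ∀ y ∈ PE₁, iterateFrobenius E p e y ∈ PE := by
    intro z hz
    rw [hmemE, hφE]
    obtain ⟨y, hy, hyz⟩ := Finset.mem_image.mp ((hmemE₁ z).mp hz)
    rw [← hyz, mb_map φ]
    exact Finset.mem_image_of_mem _ (hPP y hy)
  -- the place data
  set WE : Set E := {w | (w : L) ∈ W} with hWEd
  have hWsub : W ⊆ E := by
    rw [← hWE]
    exact IntermediateField.subset_adjoin _ _
  have hgenW : IntermediateField.adjoin (RatFunc k) WE = ⊤ := by
    apply IntermediateField.lift_injective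
    rw [IntermediateField.lift_adjoin, IntermediateField.lift_top]
    have h1 : E.val '' WE = W := by
      ext w
      constructor
      · rintro ⟨y, hy, rfl⟩
        exact hy
      · intro hw
        exact ⟨⟨w, hWsub hw⟩, hw, rfl⟩
    have h2 : (Subtype.val : E → L) '' WE = W := h1
    rw [h2, hWE]
  have hnE : Module.finrank (RatFunc k) E ≤ n :=
    le_trans (Submodule.finrank_le E.toSubalgebra.toSubmodule) hn
  obtain ⟨U, Q, hUW, hUc, hker, hloss⟩ := exists_Q hLB p (k := k) (E := E) WE hgenW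
    ⟨cr y0 y1 y2 y3, hWsub hy3W⟩ hy3W (by
      intro c hc
      exact hy3 c (congrArg Subtype.val hc))
  have hUc' : U.card ≤ n + 1 := hUc.trans (by omega)
  -- `a₀` is positive
  have ha₀' : nn d * (8 * ((8 * Module.finrank (RatFunc k) E ^ 3) * U.card) + 1) < p ^ a₀ := by
    refine lt_of_le_of_lt ?_ ha₀
    apply Nat.mul_le_mul_left
    apply Nat.add_le_add_right
    apply Nat.mul_le_mul_left
    exact Nat.mul_le_mul (Nat.mul_le_mul_left _ (Nat.pow_le_pow_left hnE 3)) hUc'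
  have ha₀1 : ∀ j : Fin (nn d), 1 ≤ a₀ := by
    intro j
    by_contra h
    have h4 : a₀ = 0 := by omega
    rw [h4, pow_zero] at ha₀
    have h5 : 0 < nn d := by
      have := j.2
      omega
    have h6 : 0 < nn d * (8 * ((8 * n ^ 3) * (n + 1)) + 1) := Nat.mul_pos h5 (by omega)
    omega
  -- the points of lower level
  have hφφ : ∀ j, ∀ z : L, iterateFrobenius L p (i j) (iterateFrobenius L p (e - i j) z) = φ z := by
    intro j z
    have h4 := hi j
    rw [hφ, itf, itf, itf, ← pow_mul, ← pow_add]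
    congr 2
    omega
  have hroot : ∀ j, ∀ z : L, ∃ w : L, w ^ p = iterateFrobenius L p (e - i j) z := by
    intro j z
    have h4 := hi j
    have h5 := ha₀1 j
    refine ⟨z ^ p ^ (e - i j - 1), ?_⟩
    rw [itf, ← pow_mul, ← pow_succ]
    congr 2
    omega
  set ψ : Fin (nn d) → L → L := fun j => mb (iterateFrobenius L p (e - i j) m)
    (iterateFrobenius L p (e - i j) lam) (iterateFrobenius L p (e - i j) ν) with hψ
  have hxm : ∀ j, x j ≠ iterateFrobenius L p (e - i j) m := by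
    intro j h
    apply hmP _ (hxP j)
    rw [← hφφ j m, ← h, itf]
  have hx2 : ∀ j, x j ≠ iterateFrobenius L p (e - i j) y2 := by
    intro j h
    obtain ⟨w, hw⟩ := hroot j y2
    exact hx j w (hw.trans h.symm)
  have hψE : ∀ j, ψ j (x j) ∈ E := by
    intro j
    have hne : ∀ z w : L, z ≠ w →
        iterateFrobenius L p (e - i j) z ≠ iterateFrobenius L p (e - i j) w :=
      fun z w h h' => h ((iterateFrobenius L p (e - i j)).injective h')
    have hT' : mT (iterateFrobenius L p (e - i j) y0) (iterateFrobenius L p (e - i j) y1)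
        (iterateFrobenius L p (e - i j) y2) (iterateFrobenius L p (e - i j) c) ≠ 0 := by
      rw [← mT_map]
      exact (_root_.map_ne_zero _).mpr hT
    have h4 : ψ j (x j) = (cr (iterateFrobenius L p (e - i j) y0)
        (iterateFrobenius L p (e - i j) y1) (iterateFrobenius L p (e - i j) y2) (x j) -
          iterateFrobenius L p (e - i j) c)⁻¹ := by
      rw [← mb_psi (hne _ _ h01) hT' (hx2 j) (by rw [← mM_map]; exact hxm j)]
      simp only [hψ]
      rw [hm, hlamd, hν, mM_map, mL_map, mN_map]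
    rw [h4]
    refine E.inv_mem (E.sub_mem (hxE j) ?_)
    rw [itf]
    exact pow_mem hcE _
  set x' : Fin (nn d) → E := fun j => ⟨ψ j (x j), hψE j⟩ with hx'
  have hDx' : ∀ j, Q.D (x' j) ≠ 0 := by
    intro j hD
    obtain ⟨y, hy⟩ := hker _ hD
    have hy' : (y : L) ^ p = ψ j (x j) := by
      have := congrArg (algebraMap E L) hy
      rw [map_pow] at this
      exact this
    obtain ⟨m', hm'⟩ := hroot j m
    obtain ⟨l', hl'⟩ := hroot j lam
    obtain ⟨ν', hν'⟩ := hroot j ν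
    have hz0 : x j - iterateFrobenius L p (e - i j) m ≠ 0 := sub_ne_zero.mpr (hxm j)
    have hl0 : iterateFrobenius L p (e - i j) lam ≠ 0 := (_root_.map_ne_zero _).mpr hlam
    apply hx j (m' + l' / (y - ν'))
    have h4 : (m' + l' / ((y : L) - ν')) ^ p = m' ^ p + l' ^ p / ((y : L) ^ p - ν' ^ p) := by
      rw [add_pow_char, div_pow, sub_pow_char]
    rw [h4, hm', hl', hν', hy']
    simp only [hψ]
    unfold mb
    rw [add_sub_cancel_left]
    field_simp
    ring
  have hx'P : ∀ j, x' j ^ p ^ i j ∈ PE := by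
    intro j
    rw [hmemE, map_pow]
    show (ψ j (x j)) ^ p ^ i j ∈ P'
    rw [← itf]
    simp only [hψ]
    rw [mb_map, hφφ, hφφ, hφφ, itf]
    exact Finset.mem_image_of_mem _ (hxP j)
  -- the generators
  have hφy : ∀ y ∈ P₁, ∃ z : E, z ∈ PE ∧ algebraMap E L z = mb (φ m) (φ lam) (φ ν) (φ y) := by
    intro y hy
    refine ⟨iterateFrobenius E p e ⟨mb m lam ν y, hmbE y hy⟩, hPPE _ ?_, ?_⟩
    · rw [hmemE₁]
      exact Finset.mem_image_of_mem _ hy
    · rw [hφE]
      show φ (mb m lam ν y) = _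
      exact mb_map φ
  have hφne : ∀ z w : L, z ≠ w → φ z ≠ φ w := fun z w h h' => h (φ.injective h')
  have hU : ∀ u ∈ U, u ≠ 0 → ∃ b', b ≤ b' ∧ ∃ x0 ∈ PE, ∃ x1 ∈ PE, ∃ x2 ∈ PE, ∃ x ∈ PE,
      u ^ p ^ b' = cr x0 x1 x2 x := by
    intro u hu _
    obtain ⟨b', hb', w, hwP, hw2, huw⟩ := hW _ (hUW hu)
    obtain ⟨z0, hz0, hz0'⟩ := hφy y0 h0
    obtain ⟨z1, hz1, hz1'⟩ := hφy y1 h1
    obtain ⟨z2, hz2, hz2'⟩ := hφy y2 h2
    have hTφ : mT (φ y0) (φ y1) (φ y2) (φ c) ≠ 0 := by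
      rw [← mT_map]
      exact (_root_.map_ne_zero _).mpr hT
    have hwm : w ≠ mM (φ y0) (φ y1) (φ y2) (φ c) := by
      rw [← mM_map]
      exact hmP w hwP
    have hwE : mb (φ m) (φ lam) (φ ν) w ∈ E := by
      have h4 := mb_psi (hφne _ _ h01) hTφ hw2 hwm
      rw [← mM_map, ← mL_map, ← mN_map] at h4
      rw [h4]
      refine E.inv_mem (E.sub_mem ?_ ?_)
      · rw [← huw]
        exact pow_mem u.2 _
      · rw [hφ, itf]
        exact pow_mem hcE _
    refine ⟨b', hb', z0, hz0, z1, hz1, z2, hz2, ⟨_, hwE⟩, ?_, ?_⟩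
    · rw [hmemE]
      exact Finset.mem_image_of_mem _ hwP
    · apply hιi
      rw [map_pow, cr_map, hz0', hz1', hz2']
      show (u : L) ^ p ^ b' = cr _ _ _ (mb (φ m) (φ lam) (φ ν) w)
      rw [mb_cr hφlam (hmP _ (hPP _ h0)) (hmP _ (hPP _ h1)) (hmP _ (hPP _ h2)) (hmP _ hwP) hw2
        (hφne _ _ h01.symm)]
      exact huw
  have hfin := chain_conj' p Q d hd e b a₀ (8 * Module.finrank (RatFunc k) E ^ 3) hbe U ha₀' p' q'
    hp'd hq'd hco' PE PE₁ hstE hstE₁ hPPE (by rw [hcardE]; exact hcard) i x' hi hij hDx' hx'P hU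
    hloss ⟨_, hmbE y0 h0⟩ ((hmemE₁ _).mpr (Finset.mem_image_of_mem _ h0))
    ⟨_, hmbE y1 h1⟩ ((hmemE₁ _).mpr (Finset.mem_image_of_mem _ h1))
    ⟨_, hmbE y2 h2⟩ ((hmemE₁ _).mpr (Finset.mem_image_of_mem _ h2))
    ⟨_, hmbE y3 h3⟩ ((hmemE₁ _).mpr (Finset.mem_image_of_mem _ h3))
    (fun h => h01 (hinj1 h0 h1 (congrArg Subtype.val h)))
    (fun h => h02 (hinj1 h0 h2 (congrArg Subtype.val h)))
    (fun h => h12 (hinj1 h1 h2 (congrArg Subtype.val h)))
    (fun h => h32 (hinj1 h3 h2 (congrArg Subtype.val h)))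
    (fun h => h30 (hinj1 h3 h0 (congrArg Subtype.val h)))
  obtain ⟨s', hs'⟩ := hfin
  apply hy3 s'
  have h4 := congrArg (algebraMap E L) hs'
  rw [cr_map] at h4
  have h5 : algebraMap E L (algebraMap k E s') = algebraMap k L s' := rfl
  rw [h5] at h4
  rw [h4]
  show _ = cr (mb m lam ν y0) (mb m lam ν y1) (mb m lam ν y2) (mb m lam ν y3)
  rw [mb_cr hlam (hm1 _ h0) (hm1 _ h1) (hm1 _ h2) (hm1 _ h3) h32 h01.symm]

end Pool.Agent.E8helper71.CP.Few
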