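import Pool.Agent.E8helper71.CP.Few4
import Pool.Agent.TH951.P.FinP
import Pool.Agent.Y93.SB.Lb
import Pool.Agent.Y93.SB.Den
import Pool.Agent.Y811.SB.CH
import Pool.Agent.Y614.SB.EF

/-!
# Few levels
-/

namespace Pool.Agent.E8helper71.CP.Few

open Pool.Agent.TH951.P
open Pool.Agent.TH951.W.UB Pool.Agent.TH951.W.UG Pool.Agent.TH951.W.UH Finset Polynomial

universe u

theorem t_LB : Pool.Agent.Y706.SB.S_LB.{u, u} :=
  Pool.Agent.Y93.SB.t_LB Pool.Agent.Y93.SB.t_DEN Pool.Agent.Y811.SB.t_CH Pool.Agent.Y614.SB.EF.t_EF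

/-- splitting a counting function into blocks -/
lemma blocks (J : Finset ℕ) (f : ℕ → ℕ) (w e : ℕ)
    (hf : ∀ b' b, b' ≤ b → b ≤ e → w ≤ (J.filter fun j => b' ≤ j ∧ j < b).card → f b + 1 ≤ f b')
    (hanti : ∀ b' b, b' ≤ b → f b ≤ f b') (s : ℕ) : ∀ b, b ≤ e →
      s * w ≤ (J.filter fun j => j < b).card → f b + s ≤ f 0 := by
  induction s with
  | zero => exact fun b _ _ => hanti 0 b (Nat.zero_le b)
  | succ s ih =>
    intro b hb hc
    set Pr : ℕ → Prop := fun t => w ≤ (J.filter fun j => t ≤ j ∧ j < b).card with hPr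
    have hP0 : Pr 0 := by
      have h1 : (J.filter fun j => 0 ≤ j ∧ j < b) = J.filter fun j => j < b := by
        ext j
        simp
      show w ≤ (J.filter fun j => 0 ≤ j ∧ j < b).card
      rw [h1]
      refine le_trans ?_ hc
      rw [Nat.succ_mul]
      exact Nat.le_add_left _ _
    classical
    set b' := Nat.findGreatest Pr b with hb'
    have hPb : Pr b' := Nat.findGreatest_spec (P := Pr) (Nat.zero_le b) hP0
    have hle : b' ≤ b := Nat.findGreatest_le b
    have hup : (J.filter fun j => b' ≤ j ∧ j < b).card ≤ w := by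
      by_cases hbb : b' = b
      · have h1 : (J.filter fun j => b' ≤ j ∧ j < b) = ∅ := by
          rw [Finset.filter_eq_empty_iff]
          intro j _
          omega
        rw [h1]
        simp
      · have h2 : ¬ Pr (b' + 1) := Nat.findGreatest_is_greatest (Nat.lt_succ_self _) (by omega)
        have h3 : (J.filter fun j => b' + 1 ≤ j ∧ j < b).card < w := not_le.mp h2
        have h4 : (J.filter fun j => b' ≤ j ∧ j < b) ⊆
            insert b' (J.filter fun j => b' + 1 ≤ j ∧ j < b) := by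
          intro j hj
          rw [Finset.mem_filter] at hj
          rw [Finset.mem_insert, Finset.mem_filter]
          by_cases h : j = b'
          · exact Or.inl h
          · exact Or.inr ⟨hj.1, by omega, hj.2.2⟩
        have h5 := (Finset.card_le_card h4).trans (Finset.card_insert_le _ _)
        omega
    have hsplit : (J.filter fun j => j < b).card ≤ (J.filter fun j => j < b').card +
        (J.filter fun j => b' ≤ j ∧ j < b).card := by
      rw [← Finset.card_union_of_disjoint]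
      · apply Finset.card_le_card
        intro j hj
        rw [Finset.mem_filter] at hj
        rw [Finset.mem_union, Finset.mem_filter, Finset.mem_filter]
        by_cases h : j < b'
        · exact Or.inl ⟨hj.1, h⟩
        · exact Or.inr ⟨hj.1, by omega, hj.2⟩
      · rw [Finset.disjoint_left]
        intro j hj hj'
        rw [Finset.mem_filter] at hj hj'
        omega
    have h6 : s * w ≤ (J.filter fun j => j < b').card := by
      rw [Nat.succ_mul] at hc
      omega
    have h7 := ih b' (hle.trans hb) h6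
    have h8 := hf b' b hle hb hPb
    omega

/-- **Few levels.** -/
theorem few_levels (n d : ℕ) (hd : 2 ≤ d) : ∃ M : ℕ, ∀ (p : ℕ) [Fact p.Prime]
    (k L : Type u) [Field k] [IsAlgClosed k] [CharP k p] [Field L] [DecidableEq L] [CharP L p]
    [ExpChar L p] [Algebra k L] [Algebra (RatFunc k) L] [IsScalarTower k (RatFunc k) L]
    [FiniteDimensional (RatFunc k) L] [Algebra.IsSeparable (RatFunc k) L],
    Module.finrank (RatFunc k) L ≤ n → ∀ (e : ℕ) (p₁ q₁ : L[X]), p₁.natDegree ≤ d →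
    q₁.natDegree = d → IsCoprime p₁ q₁ → ∀ P P₁ : Finset L,
    (∀ z ∈ P, (q₁.map (iterateFrobenius L p e)).eval z ≠ 0 ∧
      (p₁.map (iterateFrobenius L p e)).eval z / (q₁.map (iterateFrobenius L p e)).eval z ∈ P) →
    (∀ z ∈ P₁, q₁.eval z ≠ 0 ∧ p₁.eval z / q₁.eval z ∈ P₁) →
    (∀ y ∈ P₁, iterateFrobenius L p e y ∈ P) → N₃ d ≤ P₁.card → ¬ ConjConst k p₁ q₁ d →
    ∀ J : Finset ℕ, (∀ j ∈ J, j < e ∧ ∃ x : L, (∀ y, y ^ p ≠ x) ∧ x ^ p ^ j ∈ P) →
      J.card ≤ M := by
  set a₀ := nn d * (8 * ((8 * n ^ 3) * (n + 1)) + 1) with ha₀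
  refine ⟨n * (nn d + a₀), ?_⟩
  intro p hp k L _ _ _ _ _ _ _ _ _ _ _ _ hn e p₁ q₁ hp₁ hq₁ hco P P₁ hP hP₁ hPP hcard hnc J hJ
  classical
  have ha₀p : nn d * (8 * ((8 * n ^ 3) * (n + 1)) + 1) < p ^ a₀ := by
    rw [← ha₀]
    exact lt_of_lt_of_le (Nat.lt_two_pow_self) (Nat.pow_le_pow_left hp.out.two_le _)
  -- a cross ratio which is not constant
  obtain ⟨y0, h0, y1, h1, y2, h2, y3, h3, h01, h02, h12, h32, h30, hy3⟩ : ∃ y0 ∈ P₁, ∃ y1 ∈ P₁,
      ∃ y2 ∈ P₁, ∃ y3 ∈ P₁, y0 ≠ y1 ∧ y0 ≠ y2 ∧ y1 ≠ y2 ∧ y3 ≠ y2 ∧ y3 ≠ y0 ∧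
      ∀ c : k, cr y0 y1 y2 y3 ≠ algebraMap k L c := by
    by_contra hcon
    apply hnc
    apply conj_of_cross p₁ q₁ d hp₁ hq₁ hd hco P₁ hP₁ P₁ (Finset.Subset.refl _)
    · intro x0 g0 x1 g1 x2 g2 x g g01 g02 g12 gx2 gx0
      by_contra hno
      apply hcon
      refine ⟨x0, g0, x1, g1, x2, g2, x, g, g01, g02, g12, gx2, gx0, ?_⟩
      intro c hc
      exact hno ⟨c, hc.symm⟩
    · rw [Finset.sdiff_self, Finset.card_empty, mul_zero, zero_add]
      unfold N₃ at hcard
      omega
  choose! x hx hxP using fun j (hj : j ∈ J) => (hJ j hj).2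
  set φ := iterateFrobenius L p e with hφ
  set cc : ℕ → L := fun j => cr (iterateFrobenius L p (e - j) y0) (iterateFrobenius L p (e - j) y1)
    (iterateFrobenius L p (e - j) y2) (x j) with hcc
  set G : ℕ → Set L := fun b => {z | ∃ y ∈ P₁, y ≠ y2 ∧ z = cr y0 y1 y2 y} ∪
    {z | ∃ j ∈ J, b ≤ j ∧ z = cc j} with hG
  set EE : ℕ → IntermediateField (RatFunc k) L := fun b =>
    IntermediateField.adjoin (RatFunc k) (G b) with hEE
  set f : ℕ → ℕ := fun b => Module.finrank (RatFunc k) (EE b) with hf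
  have hGanti : ∀ b' b, b' ≤ b → G b ⊆ G b' := by
    intro b' b hbb z hz
    rcases hz with hz | ⟨j, hj, hbj, rfl⟩
    · exact Or.inl hz
    · exact Or.inr ⟨j, hj, hbb.trans hbj, rfl⟩
  have hEanti : ∀ b' b, b' ≤ b → EE b ≤ EE b' := fun b' b hbb =>
    IntermediateField.adjoin.mono _ _ _ (hGanti b' b hbb)
  have hfanti : ∀ b' b, b' ≤ b → f b ≤ f b' := fun b' b hbb =>
    Submodule.finrank_mono (s := (EE b).toSubalgebra.toSubmodule)
      (t := (EE b').toSubalgebra.toSubmodule) (hEanti b' b hbb)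
  have hfn : ∀ b, f b ≤ n := fun b =>
    le_trans (Submodule.finrank_le (EE b).toSubalgebra.toSubmodule) hn
  have hf1 : ∀ b, 0 < f b := fun b => Module.finrank_pos
  have hφφ : ∀ j, j ≤ e → ∀ z : L,
      iterateFrobenius L p j (iterateFrobenius L p (e - j) z) = φ z := by
    intro j hj z
    rw [hφ, itf, itf, itf, ← pow_mul, ← pow_add]
    congr 2
    omega
  have hblock : ∀ b' b, b' ≤ b → b ≤ e → nn d + a₀ ≤ (J.filter fun j => b' ≤ j ∧ j < b).card →
      f b + 1 ≤ f b' := by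
    intro b' b hbb hbe hw
    by_contra hcon
    have hEq : EE b = EE b' :=
      IntermediateField.eq_of_le_of_finrank_le (hEanti b' b hbb) (by
        have h4 := hfanti b' b hbb
        simp only [hf] at hcon h4
        omega)
    have hge : nn d ≤ (J.filter fun j => b' ≤ j ∧ j + a₀ ≤ b).card := by
      have h4 : (J.filter fun j => b' ≤ j ∧ j < b) ⊆
          (J.filter fun j => b' ≤ j ∧ j + a₀ ≤ b) ∪ Finset.Ico (b - a₀) b := by
        intro j hj
        rw [Finset.mem_filter] at hj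
        rw [Finset.mem_union, Finset.mem_filter, Finset.mem_Ico]
        by_cases h : j + a₀ ≤ b
        · exact Or.inl ⟨hj.1, hj.2.1, h⟩
        · exact Or.inr (by omega)
      have h5 := (Finset.card_le_card h4).trans (Finset.card_union_le _ _)
      rw [Nat.card_Ico] at h5
      omega
    obtain ⟨T, hTB, hTc⟩ := Finset.exists_subset_card_eq hge
    let ii : Fin (nn d) → ℕ := fun j => T.orderEmbOfFin hTc (Fin.rev j)
    have hiT : ∀ j, ii j ∈ T := fun j => Finset.orderEmbOfFin_mem T hTc _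
    have hiJ : ∀ j, ii j ∈ J ∧ b' ≤ ii j ∧ ii j + a₀ ≤ b := by
      intro j
      have h4 := hTB (hiT j)
      rw [Finset.mem_filter] at h4
      exact h4
    refine block t_LB hd p hn (EE b) e b a₀ hbe ha₀p p₁ q₁ hp₁ hq₁ hco P P₁ hP hP₁ hPP hcard
      y0 y1 y2 y3 h0 h1 h2 h3 h01 h02 h12 h32 h30 hy3 ?_ (G b) rfl ?_ ?_ ii (fun j => x (ii j))
      (fun j => (hiJ j).2.2) ?_ (fun j => hx _ (hiJ j).1) (fun j => hxP _ (hiJ j).1) ?_
    · intro y hy hy2
      exact IntermediateField.subset_adjoin _ _ (Or.inl ⟨y, hy, hy2, rfl⟩)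
    · exact Or.inl ⟨y3, h3, h32, rfl⟩
    · rintro u (⟨y, hy, hy2, rfl⟩ | ⟨j, hj, hbj, rfl⟩)
      · refine ⟨e, hbe, φ y, hPP y hy, fun h => hy2 (φ.injective h), ?_⟩
        rw [← itf, cr_map]
      · have hje := (hJ j hj).1
        refine ⟨j, hbj, x j ^ p ^ j, hxP j hj, ?_, ?_⟩
        · intro h
          rw [← itf, ← hφφ j hje.le y2] at h
          have h4 := (iterateFrobenius L p j).injective h
          apply hx j hj (y2 ^ p ^ (e - j - 1))
          rw [h4, itf, ← pow_mul, ← pow_succ]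
          congr 2
          omega
        · have h4 : (cc j) ^ p ^ j = iterateFrobenius L p j (cc j) := (itf L p j _).symm
          rw [h4]
          simp only [hcc]
          rw [cr_map, hφφ j hje.le, hφφ j hje.le, hφφ j hje.le, itf L p j (x j)]
    · intro j j' hjj
      exact (T.orderEmbOfFin hTc).strictMono (Fin.rev_lt_rev.mpr hjj)
    · intro j
      rw [hEq]
      exact IntermediateField.subset_adjoin _ _ (Or.inr ⟨ii j, (hiJ j).1, (hiJ j).2.1, rfl⟩)
  by_contra hcon
  push Not at hcon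
  have h4 := blocks J f (nn d + a₀) e hblock hfanti n e le_rfl (by
    have h5 : (J.filter fun j => j < e) = J := Finset.filter_true_of_mem fun j hj => (hJ j hj).1
    rw [h5]
    exact hcon.le)
  have h5 := hfn 0
  have h6 := hf1 e
  omega

end Pool.Agent.E8helper71.CP.Few
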