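import Pool.Agent.E8helper71.CP.Few5

/-!
# One descent, with the relation between the maps
-/

namespace Pool.Agent.E8helper71.CP.Few

open Pool.Agent.TH951.P
open Pool.Agent.TH951.W.UB Pool.Agent.TH951.W.UG Pool.Agent.TH951.W.UH Finset Polynomial

universe u

variable {k : Type*} {K : Type u} [Field k] [Field K] [Algebra k K] [DecidableEq K]

/-- **One descent.** -/
theorem good_step' [Infinite K] (p : ℕ) [Fact p.Prime] [CharP k p] [CharP K p] [ExpChar k p]
    [ExpChar K p] (Q : PlaceData k K) (hker : ∀ x, Q.D x = 0 → ∃ y, y ^ p = x) (d : ℕ)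
    (hd : 2 ≤ d) {P₀ R₀ : Polynomial K} {N₀ : ℕ} {X₀ : Set K} {e : ℕ} {P R : Polynomial K}
    {S S' : Finset K} (G : Good k p d P₀ R₀ N₀ X₀ e P R S S') (T : Finset K)
    (hTS : T ⊆ S') (α β γ : K) (hT : ∀ x ∈ T, Q.D x = α * x ^ 2 + β * x + γ)
    (hcard : (d + 1) * (S' \ T).card + (3 * d + 4) ≤ S'.card) :
    ∃ (P₁ R₁ : Polynomial K) (S₁ S₁' : Finset K), Good k p d P₀ R₀ N₀ X₀ (e + 1) P₁ R₁ S₁ S₁' ∧
      S'.card ≤ 2 * S₁'.card ∧ ∃ s m lam ν : K, s ≠ 0 ∧ lam ≠ 0 ∧ P.eval m ≠ m * R.eval m ∧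
        cP d s m lam ν P R = P₁.map (frobenius K p) ∧
        cQ d s m lam ν P R = R₁.map (frobenius K p) := by
  classical
  obtain ⟨s, m, lam, ν, P₁, R₁, hs, hlam, hmS, hmf, hcP, hcQ, hTp⟩ :=
    frob_step p Q hker d hd P R G.hP G.hR G.hco S' G.hS' T hTS α β γ hT hcard
  set φ := iterateFrobenius K p e with hφ
  have hφ1 : ∀ x, iterateFrobenius K p (e + 1) x = φ (x ^ p) := by
    intro x
    rw [hφ, iterateFrobenius_def, iterateFrobenius_def, ← pow_mul, pow_succ, mul_comm]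
  have hφf : iterateFrobenius K p (e + 1) = φ.comp (frobenius K p) := by
    ext x
    rw [hφ1]
    rfl
  have hmbφ : ∀ x, φ (mb m lam ν x) = mb (φ m) (φ lam) (φ ν) (φ x) := by
    intro x
    unfold mb
    simp
  have hφlam : φ lam ≠ 0 := (_root_.map_ne_zero φ).mpr hlam
  have hφs : φ s ≠ 0 := (_root_.map_ne_zero φ).mpr hs
  have hφm : ∀ x ∈ S, x ≠ φ m := by
    intro x hx h
    apply hmS
    rw [G.hSS, ← hφ, ← h]
    exact hx
  have hm' : ∀ x ∈ S', x ≠ m := fun x hx h => hmS (h ▸ hx)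
  set S₁ := S.image (mb (φ m) (φ lam) (φ ν)) with hS₁
  have hinj : Function.Injective fun c : K => c ^ p := (frobenius K p).injective
  set S₁' := (S'.image (mb m lam ν)).preimage (fun c : K => c ^ p) hinj.injOn with hS₁'
  have hmem' : ∀ y, y ∈ S₁' ↔ ∃ x ∈ S', mb m lam ν x = y ^ p := by
    intro y
    rw [hS₁', Finset.mem_preimage, Finset.mem_image]
  have hSS₁ : ∀ y, y ∈ S₁' ↔ iterateFrobenius K p (e + 1) y ∈ S₁ := by
    intro y
    rw [hmem', hφ1, hS₁, Finset.mem_image]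
    constructor
    · rintro ⟨x, hx, h⟩
      refine ⟨φ x, (G.hSS x).mp hx, ?_⟩
      rw [← hmbφ, h]
    · rintro ⟨z, hz, h⟩
      have hzm := hφm z hz
      have hz0 : z - φ m ≠ 0 := sub_ne_zero.mpr hzm
      have h1 : φ lam / (z - φ m) = φ (y ^ p - ν) := by
        rw [map_sub, ← h]
        unfold mb
        ring
      have hy0 : y ^ p - ν ≠ 0 := by
        intro h0
        rw [h0, map_zero] at h1
        exact div_ne_zero hφlam hz0 h1
      have hzx : z = φ (m + lam / (y ^ p - ν)) := by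
        rw [map_add, map_div₀, ← h1]
        field_simp
        ring
      refine ⟨m + lam / (y ^ p - ν), ?_, ?_⟩
      · rw [G.hSS, ← hφ, ← hzx]
        exact hz
      · unfold mb
        rw [add_sub_cancel_left]
        field_simp
        ring
  have hP₁d : P₁.natDegree ≤ d := by
    have h1 : (P₁.map (frobenius K p)).natDegree ≤ d := by
      rw [← hcP]
      exact cP_degree hlam
    rwa [natDegree_map] at h1
  have hR₁d : R₁.natDegree = d := by
    have h1 : (R₁.map (frobenius K p)).natDegree = d := by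
      rw [← hcQ]
      exact cQ_degree G.hP G.hR.le hs hlam hmf
    rwa [natDegree_map] at h1
  have hco₁ : IsCoprime P₁ R₁ := by
    rw [← Polynomial.isCoprime_map (frobenius K p), ← hcP, ← hcQ]
    exact c_coprime (by omega) G.hP G.hR G.hco hs hlam
  have hcPe : P₁.map (iterateFrobenius K p (e + 1)) =
      cP d (φ s) (φ m) (φ lam) (φ ν) (P.map φ) (R.map φ) := by
    rw [cP_map, hcP, Polynomial.map_map, hφf]
  have hcQe : R₁.map (iterateFrobenius K p (e + 1)) =
      cQ d (φ s) (φ m) (φ lam) (φ ν) (P.map φ) (R.map φ) := by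
    rw [cQ_map, hcQ, Polynomial.map_map, hφf]
  have hSstab : ∀ z ∈ S₁, (R₁.map (iterateFrobenius K p (e + 1))).eval z ≠ 0 ∧
      (P₁.map (iterateFrobenius K p (e + 1))).eval z /
        (R₁.map (iterateFrobenius K p (e + 1))).eval z ∈ S₁ := by
    intro z hz
    rw [hS₁, Finset.mem_image] at hz
    obtain ⟨x, hx, rfl⟩ := hz
    obtain ⟨g1, g2⟩ := G.hS x hx
    have hPd : (P.map φ).natDegree ≤ d := natDegree_map_le.trans G.hP
    have hRd : (R.map φ).natDegree ≤ d := natDegree_map_le.trans G.hR.le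
    obtain ⟨e1, e2⟩ := c_eval (d := d) (s := φ s) (m := φ m) (lam := φ lam) (ν := φ ν) hPd hRd hφs
      hφlam (x := x) (hφm x hx) g1 (hφm _ g2)
    rw [hcPe, hcQe]
    refine ⟨e1, ?_⟩
    rw [e2, hS₁]
    exact Finset.mem_image_of_mem _ g2
  have hS'stab : ∀ z ∈ S₁', R₁.eval z ≠ 0 ∧ P₁.eval z / R₁.eval z ∈ S₁' := by
    intro y hy
    obtain ⟨x, hx, hxy⟩ := (hmem' y).mp hy
    obtain ⟨g1, g2⟩ := G.hS' x hx
    obtain ⟨e1, e2⟩ := c_eval (d := d) (s := s) (m := m) (lam := lam) (ν := ν) G.hP G.hR.le hs hlam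
      (x := x) (hm' x hx) g1 (hm' _ g2)
    have f1 : (R₁.map (frobenius K p)).eval (y ^ p) = (R₁.eval y) ^ p := by
      rw [← frobenius_def, eval_map_apply, frobenius_def]
    have f2 : (P₁.map (frobenius K p)).eval (y ^ p) = (P₁.eval y) ^ p := by
      rw [← frobenius_def, eval_map_apply, frobenius_def]
    rw [hcQ, hxy, f1] at e1
    have hR₁0 : R₁.eval y ≠ 0 := by
      intro h
      apply e1
      rw [h, zero_pow (Fact.out : p.Prime).ne_zero]
    refine ⟨hR₁0, ?_⟩
    rw [hmem']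
    refine ⟨_, g2, ?_⟩
    rw [← e2, hcP, hcQ, hxy, f1, f2, div_pow]
  have hinjS : Set.InjOn (mb (φ m) (φ lam) (φ ν)) (S : Set K) := fun x hx y hy h =>
    mb_inj hφlam (hφm x hx) (hφm y hy) h
  have hcard₁ : S₁.card = N₀ := by
    rw [hS₁, Finset.card_image_of_injOn hinjS, G.hcard]
  -- levels
  have hlevc : ∀ i ≤ e, (lev p S₁ i).card = (lev p S i).card := by
    intro i hi
    have hφr : ∀ x, φ x ∈ (iterateFrobenius K p i).fieldRange := by
      intro x
      obtain ⟨j, rfl⟩ : ∃ j, e = j + i := ⟨e - i, by omega⟩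
      refine ⟨x ^ p ^ j, ?_⟩
      show iterateFrobenius K p i (x ^ p ^ j) = _
      rw [hφ, iterateFrobenius_def, iterateFrobenius_def, ← pow_mul, ← pow_add]
    have h1 : lev p S₁ i = (lev p S i).image (mb (φ m) (φ lam) (φ ν)) := by
      ext z
      rw [mem_lev, hS₁, Finset.mem_image, Finset.mem_image]
      constructor
      · rintro ⟨⟨x, hx, rfl⟩, h2⟩
        refine ⟨x, ?_, rfl⟩
        rw [mem_lev]
        refine ⟨hx, ?_⟩
        have hx0 : x - φ m ≠ 0 := sub_ne_zero.mpr (hφm x hx)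
        have h3 : x = φ m + φ lam / (mb (φ m) (φ lam) (φ ν) x - φ ν) := by
          unfold mb
          rw [add_sub_cancel_left]
          field_simp
          ring
        rw [h3]
        exact add_mem (hφr m) (div_mem (hφr lam) (sub_mem h2 (hφr ν)))
      · rintro ⟨x, hx, rfl⟩
        rw [mem_lev] at hx
        refine ⟨⟨x, hx.1, rfl⟩, ?_⟩
        unfold mb
        exact add_mem (hφr ν) (div_mem (hφr lam) (sub_mem hx.2 (hφr m)))
    rw [h1, Finset.card_image_of_injOn]
    intro x hx y hy h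
    have hx' : x ∈ lev p S i := hx
    have hy' : y ∈ lev p S i := hy
    exact hinjS (mem_lev.mp hx').1 (mem_lev.mp hy').1 h
  have hTcard : T.card ≤ S₁'.card := by
    choose! g hg using hTp
    apply Finset.card_le_card_of_injOn g
    · intro x hx
      have hx' : x ∈ T := hx
      show g x ∈ S₁'
      rw [hmem']
      exact ⟨x, hTS hx', (hg x hx').symm⟩
    · intro x hx y hy h
      have hx' : x ∈ T := hx
      have hy' : y ∈ T := hy
      have h1 : mb m lam ν x = mb m lam ν y := by rw [← hg x hx', ← hg y hy', h]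
      exact mb_inj hlam (hm' x (hTS hx')) (hm' y (hTS hy')) h1
  have hhalf : S'.card ≤ 2 * S₁'.card := by
    have h1 : (S' \ T).card + T.card = S'.card := by
      rw [Finset.card_sdiff_of_subset hTS]
      have := Finset.card_le_card hTS
      omega
    have h2 : 3 * (S' \ T).card ≤ (d + 1) * (S' \ T).card := Nat.mul_le_mul_right _ (by omega)
    omega
  refine ⟨P₁, R₁, S₁, S₁', ⟨hP₁d, hR₁d, hco₁, hS'stab, hSstab, hSS₁, ?_, hcard₁, ?_, ?_⟩, hhalf,
    s, m, lam, ν, hs, hlam, hmf, hcP, hcQ⟩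
  · intro i hi
    rcases Nat.lt_succ_iff_lt_or_eq.mp hi with h | h
    · rw [hlevc i h.le, hlevc (i + 1) h]
      exact G.hlev i h
    · subst h
      rw [hlevc i le_rfl, card_lev_eq G.hSS, card_lev_eq hSS₁]
      exact hhalf
  · intro h
    apply G.hconj
    apply conj_back G.hP G.hR.le hs hlam (m := m) (ν := ν)
    rw [hcP, hcQ]
    exact conjConst_frob p h
  · intro y0 h0 y1 h1 y2 h2 y h hy2 hy10
    rw [hS₁, Finset.mem_image] at h0 h1 h2 h
    obtain ⟨x0, h0, rfl⟩ := h0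
    obtain ⟨x1, h1, rfl⟩ := h1
    obtain ⟨x2, h2, rfl⟩ := h2
    obtain ⟨x, h, rfl⟩ := h
    have g1 : x ≠ x2 := fun h' => hy2 (by rw [h'])
    have g2 : x1 ≠ x0 := fun h' => hy10 (by rw [h'])
    rw [mb_cr hφlam (hφm _ h0) (hφm _ h1) (hφm _ h2) (hφm _ h) g1 g2]
    exact G.hcr x0 h0 x1 h1 x2 h2 x h g1 g2

end Pool.Agent.E8helper71.CP.Few
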