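import Pool.Agent.E8helper71.CP.Few6

/-!
# The bound for stable sets from the main inequality and the few levels
-/

namespace Pool.Agent.E8helper71.CP.Few

open Pool.Agent.TH951.P
open Pool.Agent.TH951.W.UB Pool.Agent.TH951.W.UG Pool.Agent.TH951.W.UH Finset Polynomial

universe u

/-- constant cross ratios give a quadratic relation for the derivation -/
lemma quad_of_cross {k K : Type*} [Field k] [Field K] [Algebra k K] (D : Derivation k K K)
    (T : Finset K) (hT : 2 < T.card)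
    (hc : ∀ x0 ∈ T, ∀ x1 ∈ T, ∀ x2 ∈ T, ∀ x ∈ T, x0 ≠ x1 → x0 ≠ x2 → x1 ≠ x2 → x ≠ x2 → x ≠ x0 →
      D (cr x0 x1 x2 x) = 0) : ∃ α β γ : K, ∀ x ∈ T, D x = α * x ^ 2 + β * x + γ := by
  obtain ⟨x0, h0, x1, h1, x2, h2, h01, h02, h12⟩ := Finset.two_lt_card.mp hT
  have n01 := sub_ne_zero.mpr h01
  have n10 := sub_ne_zero.mpr h01.symm
  have n02 := sub_ne_zero.mpr h02
  have n20 := sub_ne_zero.mpr h02.symm
  have n12 := sub_ne_zero.mpr h12
  have n21 := sub_ne_zero.mpr h12.symm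
  obtain ⟨f01, hf01⟩ : ∃ f, f = (D x1 - D x0) / (x1 - x0) := ⟨_, rfl⟩
  obtain ⟨f12, hf12⟩ : ∃ f, f = (D x2 - D x1) / (x2 - x1) := ⟨_, rfl⟩
  obtain ⟨α, hα⟩ : ∃ α, α = (f12 - f01) / (x2 - x0) := ⟨_, rfl⟩
  obtain ⟨β, hβ⟩ : ∃ β, β = f01 - α * (x0 + x1) := ⟨_, rfl⟩
  obtain ⟨γ, hγ⟩ : ∃ γ, γ = D x0 - β * x0 - α * x0 ^ 2 := ⟨_, rfl⟩
  have e01 : f01 * (x1 - x0) = D x1 - D x0 := by rw [hf01, div_mul_cancel₀ _ n10]
  have e12 : f12 * (x2 - x1) = D x2 - D x1 := by rw [hf12, div_mul_cancel₀ _ n21]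
  have eα : α * (x2 - x0) = f12 - f01 := by rw [hα, div_mul_cancel₀ _ n20]
  have g0 : D x0 = α * x0 ^ 2 + β * x0 + γ := by rw [hγ]; ring
  have g1 : D x1 = α * x1 ^ 2 + β * x1 + γ := by
    rw [hγ, hβ]
    linear_combination -e01
  have g2 : D x2 = α * x2 ^ 2 + β * x2 + γ := by
    have : D x2 = D x1 + f12 * (x2 - x1) := by rw [e12]; ring
    rw [this, g1]
    rw [hβ]
    linear_combination (-(x2 - x1)) * eα
  refine ⟨α, β, γ, fun x hx => ?_⟩
  by_cases hx0 : x = x0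
  · rw [hx0]; exact g0
  by_cases hx2 : x = x2
  · rw [hx2]; exact g2
  have m0 := sub_ne_zero.mpr hx0
  have m2 := sub_ne_zero.mpr hx2
  have hD := hc x0 h0 x1 h1 x2 h2 x hx h01 h02 h12 hx2 hx0
  have hcr : cr x0 x1 x2 x * ((x - x2) * (x1 - x0)) = (x - x0) * (x1 - x2) := by
    unfold cr
    field_simp
  have h3 := congrArg D hcr
  rw [Derivation.leibniz, Derivation.leibniz, Derivation.leibniz, hD] at h3
  simp only [smul_eq_mul, map_sub, mul_zero, add_zero] at h3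
  have hcv : cr x0 x1 x2 x = (x - x0) * (x1 - x2) / ((x - x2) * (x1 - x0)) := rfl
  rw [hcv, div_mul_eq_mul_div, div_eq_iff (mul_ne_zero m2 n10)] at h3
  rw [g0, g1, g2] at h3
  have h4 : (D x - (α * x ^ 2 + β * x + γ)) * ((x1 - x2) * (x1 - x0) * (x2 - x0)) = 0 := by
    linear_combination h3
  have h5 := (mul_eq_zero.mp h4).resolve_right (mul_ne_zero (mul_ne_zero n12 n10) n20)
  exact sub_eq_zero.mp h5

/-- **The bound for stable sets.** -/
theorem card_stable_lev (n d : ℕ) (hd : 2 ≤ d) : ∃ M : ℕ, ∀ (p : ℕ) [Fact p.Prime]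
    (k L : Type u) [Field k] [IsAlgClosed k] [CharP k p] [Field L] [DecidableEq L] [CharP L p]
    [Algebra k L] [Algebra (RatFunc k) L] [IsScalarTower k (RatFunc k) L]
    [FiniteDimensional (RatFunc k) L] [Algebra.IsSeparable (RatFunc k) L],
    Module.finrank (RatFunc k) L ≤ n → ∀ (Φ : L[X] → L[X] → Prop),
    (∀ (P R P₁ R₁ : L[X]) (s m lam ν : L), P.natDegree ≤ d → R.natDegree = d → IsCoprime P R →
      s ≠ 0 → lam ≠ 0 → P.eval m ≠ m * R.eval m →
      cP d s m lam ν P R = P₁.map (frobenius L p) →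
      cQ d s m lam ν P R = R₁.map (frobenius L p) → Φ P R → Φ P₁ R₁) →
    ∀ N₁ : ℕ, (∀ P R : L[X], P.natDegree ≤ d → R.natDegree = d → IsCoprime P R → Φ P R →
      ¬ ConjConst k P R d → ∀ S : Finset L, (∀ z ∈ S, R.eval z ≠ 0 ∧ P.eval z / R.eval z ∈ S) →
      N₁ ≤ S.card → ∃ T ⊆ S, (d + 1) * (S \ T).card + (3 * d + 4) ≤ S.card ∧
        ∀ x0 ∈ T, ∀ x1 ∈ T, ∀ x2 ∈ T, ∀ x ∈ T, x0 ≠ x1 → x0 ≠ x2 → x1 ≠ x2 → x ≠ x2 → x ≠ x0 →
          ∃ y : L, y ^ p = cr x0 x1 x2 x) →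
    ∀ P₀ R₀ : L[X], P₀.natDegree ≤ d → R₀.natDegree = d → IsCoprime P₀ R₀ → Φ P₀ R₀ →
    ¬ ConjConst k P₀ R₀ d →
    ∀ S₀ : Finset L, (∀ z ∈ S₀, R₀.eval z ≠ 0 ∧ P₀.eval z / R₀.eval z ∈ S₀) →
      S₀.card ≤ 2 ^ M * (N₁ + 2 * N₃ d + 2) := by
  classical
  obtain ⟨M, hM⟩ := few_levels.{u} n d hd
  refine ⟨M, ?_⟩
  intro p hpf k K _ _ _ _ _ _ _ _ _ _ _ hn Φ hΦ N₁ hA P₀ R₀ hP₀ hR₀ hco₀ hΦ₀ hiso S₀ hS₀
  haveI : ExpChar k p := ExpChar.prime hpf.out
  haveI : ExpChar K p := ExpChar.prime hpf.out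
  haveI : Infinite k := IsAlgClosed.instInfinite
  haveI : Infinite K := Infinite.of_injective _ (algebraMap k K).injective
  -- place data
  obtain ⟨U, Q, -, -, hker, -⟩ := exists_Q t_LB p (k := k) (E := K) Set.univ
    (by
      rw [eq_top_iff]
      intro x _
      exact IntermediateField.subset_adjoin _ _ (Set.mem_univ x))
    (algebraMap (RatFunc k) K RatFunc.X) (Set.mem_univ _) (by
      intro c hc
      rw [IsScalarTower.algebraMap_apply k (RatFunc k) K] at hc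
      have h1 := (algebraMap (RatFunc k) K).injective hc
      rw [RatFunc.algebraMap_eq_C, ← RatFunc.algebraMap_C, ← RatFunc.algebraMap_X] at h1
      have h2 := RatFunc.algebraMap_injective k h1
      have h3 := congrArg Polynomial.natDegree h2
      rw [natDegree_X, natDegree_C] at h3
      exact one_ne_zero h3)
  set B₁ := N₁ + 2 * N₃ d + 2 with hB₁
  by_contra hcon
  push Not at hcon
  have hbig : B₁ < S₀.card := by
    refine lt_of_le_of_lt ?_ hcon
    exact Nat.le_mul_of_pos_left _ (by positivity)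
  -- cross ratios
  set X : Finset K := ((S₀ ×ˢ S₀) ×ˢ (S₀ ×ˢ S₀)).image fun t => cr t.1.1 t.1.2 t.2.1 t.2.2 with hX
  obtain ⟨n₀, hn₀⟩ := ord_bound_fin Q X
  have hG0 : Good k p d P₀ R₀ S₀.card (X : Set K) 0 P₀ R₀ S₀ S₀ := by
    refine ⟨hP₀, hR₀, hco₀, hS₀, ?_, ?_, fun i hi => absurd hi (by omega), rfl, id, ?_⟩
    · rw [iterateFrobenius_zero, Polynomial.map_id, Polynomial.map_id]
      exact hS₀
    · intro y
      rw [iterateFrobenius_zero]
      rfl
    · intro x0 h0 x1 h1 x2 h2 x h _ _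
      rw [hX, Finset.mem_coe, Finset.mem_image]
      exact ⟨((x0, x1), (x2, x)), Finset.mem_product.mpr ⟨Finset.mem_product.mpr ⟨h0, h1⟩,
        Finset.mem_product.mpr ⟨h2, h⟩⟩, rfl⟩
  have hloop : ∀ e : ℕ, (∃ (e' : ℕ) (P R : Polynomial K) (S S' : Finset K),
      Good k p d P₀ R₀ S₀.card (X : Set K) e' P R S S' ∧ S'.card ≤ B₁ ∧ B₁ < 2 * S'.card) ∨
      ∃ (P R : Polynomial K) (S S' : Finset K),
      Good k p d P₀ R₀ S₀.card (X : Set K) e P R S S' ∧ B₁ < S'.card ∧ Φ P R := by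
    intro e
    induction e with
    | zero => exact Or.inr ⟨P₀, R₀, S₀, S₀, hG0, hbig, hΦ₀⟩
    | succ e ih =>
      rcases ih with h | ⟨P, R, S, S', G, hc, hΦP⟩
      · exact Or.inl h
      · have hnc : ¬ ConjConst k P R d := fun h => hiso (G.hconj h)
        obtain ⟨T, hTS, hTc, hTcr⟩ := hA P R G.hP G.hR G.hco hΦP hnc S' G.hS' (by omega)
        have hTS2 : (S' \ T).card + T.card = S'.card := by
          rw [Finset.card_sdiff_of_subset hTS]
          have := Finset.card_le_card hTS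
          omega
        have hTT : (S' \ T).card ≤ (d + 1) * (S' \ T).card := Nat.le_mul_of_pos_left _ (by omega)
        obtain ⟨α, β, γ, hT⟩ := quad_of_cross Q.D T (by omega) (by
          intro x0 h0 x1 h1 x2 h2 x hx h01 h02 h12 hx2 hx0
          obtain ⟨y, hy⟩ := hTcr x0 h0 x1 h1 x2 h2 x hx h01 h02 h12 hx2 hx0
          rw [← hy, Derivation.leibniz_pow]
          simp)
        obtain ⟨P₁, R₁, S₁, S₁', G₁, hc₁, s, m, lam, ν, hs, hlam, hmf, hcP, hcQ⟩ :=
          good_step' p Q hker d hd G T hTS α β γ hT hTc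
        have hΦ₁ := hΦ P R P₁ R₁ s m lam ν G.hP G.hR G.hco hs hlam hmf hcP hcQ hΦP
        by_cases hle : S₁'.card ≤ B₁
        · exact Or.inl ⟨e + 1, P₁, R₁, S₁, S₁', G₁, hle, by omega⟩
        · exact Or.inr ⟨P₁, R₁, S₁, S₁', G₁, by omega, hΦ₁⟩
  have hterm : ∃ (e : ℕ) (P R : Polynomial K) (S S' : Finset K),
      Good k p d P₀ R₀ S₀.card (X : Set K) e P R S S' ∧ S'.card ≤ B₁ ∧ B₁ < 2 * S'.card := by
    rcases hloop n₀ with h | ⟨P, R, S, S', G, hc, -⟩
    · exact h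
    · exfalso
      apply hiso
      apply G.hconj
      have hp2 : n₀ < p ^ n₀ :=
        lt_of_lt_of_le (Nat.lt_two_pow_self) (Nat.pow_le_pow_left hpf.out.two_le _)
      apply conj_of_cross P R d G.hP G.hR hd G.hco S' G.hS' S' (Finset.Subset.refl _)
      · intro x0 h0 x1 h1 x2 h2 x hx h01 h02 h12 hx2 hx0
        have n1 := sub_ne_zero.mpr hx0
        have n2 := sub_ne_zero.mpr h12
        have n3 := sub_ne_zero.mpr hx2
        have n4 := sub_ne_zero.mpr h01.symm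
        have hc0 : cr x0 x1 x2 x ≠ 0 := div_ne_zero (mul_ne_zero n1 n2) (mul_ne_zero n3 n4)
        apply Q.const _ hc0
        intro v
        set φ := iterateFrobenius K p n₀ with hφ
        have hmem := G.hcr _ ((G.hSS x0).mp h0) _ ((G.hSS x1).mp h1) _ ((G.hSS x2).mp h2) _
          ((G.hSS x).mp hx) (fun h => hx2 (φ.injective h)) (fun h => h01.symm (φ.injective h))
        rw [← hφ] at hmem
        have hcrφ : cr (φ x0) (φ x1) (φ x2) (φ x) = φ (cr x0 x1 x2 x) := by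
          unfold cr
          simp only [map_div₀, map_mul, map_sub]
        rw [hcrφ] at hmem
        have h3 := hn₀ _ hmem ((_root_.map_ne_zero φ).mpr hc0) v
        rw [hφ, ord_frob p Q v n₀ _ hc0, Int.natAbs_mul, Int.natAbs_natCast] at h3
        have h4 : (Q.ord v (cr x0 x1 x2 x)).natAbs = 0 := by
          by_contra hne
          have h5 : 1 ≤ (Q.ord v (cr x0 x1 x2 x)).natAbs := Nat.one_le_iff_ne_zero.mpr hne
          have h6 : p ^ n₀ ≤ p ^ n₀ * (Q.ord v (cr x0 x1 x2 x)).natAbs :=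
            Nat.le_mul_of_pos_right _ h5
          omega
        have h5 : Q.ord v (cr x0 x1 x2 x) = 0 := Int.natAbs_eq_zero.mp h4
        exact h5.ge
      · rw [Finset.sdiff_self, Finset.card_empty, mul_zero, zero_add]
        have hN₃ : 3 * d + 4 ≤ N₃ d := by
          unfold N₃
          omega
        omega
  obtain ⟨e, P, R, S, S', G, hc1, hc2⟩ := hterm
  have hN₃ : N₃ d ≤ S'.card := by omega
  have hnc : ¬ ConjConst k P R d := fun h => hiso (G.hconj h)
  set f : ℕ → ℕ := fun i => (lev p S i).card with hf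
  have hhalf := halving f e G.hlev
  have hf0 : f 0 = S₀.card := by
    simp only [hf]
    rw [lev_zero, G.hcard]
  have hfe : f e = S'.card := card_lev_eq G.hSS
  set Bad := (Finset.range e).filter fun i => f i ≠ f (i + 1) with hBad
  have hBadM : Bad.card ≤ M := by
    refine hM p k K hn e P R G.hP G.hR G.hco S S' G.hS G.hS' (fun y hy => (G.hSS y).mp hy) hN₃ hnc
      Bad ?_
    intro j hj
    rw [hBad, Finset.mem_filter, Finset.mem_range] at hj
    refine ⟨hj.1, ?_⟩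
    have hne : f j ≠ f (j + 1) := hj.2
    have hsub := lev_succ_sub p S j
    have h2 : ∃ x ∈ lev p S j, x ∉ lev p S (j + 1) := by
      by_contra hcon2
      push Not at hcon2
      have h3 : lev p S j = lev p S (j + 1) := Finset.Subset.antisymm hcon2 hsub
      exact hne (by simp only [hf]; rw [← h3])
    obtain ⟨x, hx1, hx2⟩ := h2
    rw [mem_lev] at hx1 hx2
    obtain ⟨hxS, y, hy⟩ := hx1
    rw [iterateFrobenius_def] at hy
    refine ⟨y, ?_, by rw [hy]; exact hxS⟩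
    intro z hz
    apply hx2
    refine ⟨hxS, z, ?_⟩
    rw [iterateFrobenius_def, ← hy, ← hz, ← pow_mul, pow_succ, mul_comm]
  rw [hf0, hfe] at hhalf
  have h1 : 2 ^ Bad.card * S'.card ≤ 2 ^ M * B₁ :=
    Nat.mul_le_mul (Nat.pow_le_pow_right (by norm_num) hBadM) hc1
  exact absurd (hhalf.trans h1) (not_le.mpr hcon)

end Pool.Agent.E8helper71.CP.Few
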