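import Pool.Agent.E8helper65.CM.KL

/-!
# The main inequality over a field generated by points and marked points

The theorem `K_level` of helper65 (`Pool/Agent/E8helper65/CM/KL.lean`) with the same proof and with
a bound for the characteristic which does not depend on the degree of the field.
-/

set_option linter.unusedSectionVars false
set_option linter.unusedVariables false

namespace Pool.Agent.E8helper65.CM

open Polynomial Finset
open Pool.Agent.TH951.W.UB
open Pool.Agent.TH951.W.UB.PlaceData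
open Pool.Agent.W277.UH Pool.Agent.Y706.CH Pool.Agent.Y195.CH Pool.Agent.Y676.CH
open Pool.Agent.E8helper88.Mul

universe u v w

/-- **The main inequality over a field generated by points and marked points.** -/
theorem K_levelU (hM : S_MCM.{u}) (d : ℕ) (hd : 2 ≤ d) : ∃ m P0 : ℕ, 1 ≤ m ∧ ∀ n : ℕ, ∃ N : ℕ,
    ∀ (p : ℕ) [Fact p.Prime] (hp : P0 < p) (k K Om : Type u) [Field k] [IsAlgClosed k] [CharP k p]
    [Field K] [CharP K p] [Algebra k K] [Algebra (RatFunc k) K] [IsScalarTower k (RatFunc k) K]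
    [FiniteDimensional (RatFunc k) K] [Algebra.IsSeparable (RatFunc k) K] [Field Om]
    [IsAlgClosed Om] [Algebra K Om] [DecidableEq K],
    Module.finrank (RatFunc k) K ≤ n → ∀ f g : K[X], f.natDegree ≤ d → g.natDegree = d →
    g.Monic → IsCoprime f g → ¬ ConjConst k f g d →
    ¬ LatF d (f.map (algebraMap K Om)) (g.map (algebraMap K Om)) →
    RatPts Om d m f g → Rat32 Om d f g → ∀ P : Finset K,
    (∀ z ∈ P, g.eval z ≠ 0 ∧ f.eval z / g.eval z ∈ P) →
    (∃ c₀ c₁ c₂ : k, c₀ ≠ c₁ ∧ c₀ ≠ c₂ ∧ c₁ ≠ c₂ ∧ algebraMap k K c₀ ∈ P ∧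
      algebraMap k K c₁ ∈ P ∧ algebraMap k K c₂ ∈ P) →
    IntermediateField.adjoin (RatFunc k)
      ((P : Set K) ∪ {x | (WP d m f g * WQ d f g).eval x = 0}) = ⊤ →
    N ≤ P.card → ∃ T ⊆ P, (d + 1) * (P \ T).card + (3 * d + 4) ≤ P.card ∧
      ∀ x₀ ∈ T, ∀ x₁ ∈ T, ∀ x₂ ∈ T, ∀ x ∈ T, x₀ ≠ x₁ → x₀ ≠ x₂ → x₁ ≠ x₂ →
        ∃ y : K, y ^ p = Pool.Agent.TH951.P.cr x₀ x₁ x₂ x := by
  classical
  obtain ⟨m, B, P1, hm, hB, hcore⟩ := coreP.{u, u, u} hM d hd
  refine ⟨m, P1 + d, hm, fun n => ?_⟩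
  obtain ⟨N, hN⟩ := finQ_app.{u} d (cL d n) (m * cJ d m B) hd (by unfold cL; omega)
  refine ⟨N, ?_⟩
  intro p hprime hp k K Om _ _ _ _ _ _ _ _ _ _ _ _ _ _ hn f g hf hg hg1 hco hiso hlat hrat hrat32
    P hP ⟨c₀, c₁, c₂, h01, h02, h12, hc₀, hc₁, hc₂⟩ hadj hcard
  have hmax : max f.natDegree g.natDegree = d := by rw [hg]; exact max_eq_right hf
  have hinfk : Infinite k := IsAlgClosed.instInfinite
  have hinf : Infinite K := Infinite.of_injective _ (algebraMap k K).injective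
  have hnz : ∀ j : ℕ, 1 ≤ j → j ≤ P1 + d → (j : k) ≠ 0 := by
    intro j h1 h2 h3
    rw [CharP.cast_eq_zero_iff k p] at h3
    have := Nat.le_of_dvd (by omega) h3
    omega
  have hnzK : ∀ j : ℕ, 1 ≤ j → j ≤ P1 + d → (j : K) ≠ 0 := fun j h1 h2 =>
    nz_map (algebraMap k K) (hnz j h1 h2)
  have hdk : (d : k) ≠ 0 := hnz d (by omega) (by omega)
  have hdK : (d : K) ≠ 0 := hnzK d (by omega) (by omega)
  have hdO : (d : Om) ≠ 0 := nz_map (algebraMap K Om) hdK
  -- the generator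
  obtain ⟨a₀, ha₀c, ha₀⟩ := isConst_of (k := k) d (by omega) f g hf hg hiso
  obtain ⟨T, hTG, hTn, hTadj⟩ := Pool.Agent.Y179.BI.t_GEN (RatFunc k) K n hn _ hadj
  set T' := insert a₀ T with hT'
  have hT'n : T'.card ≤ n + 1 := (Finset.card_insert_le _ _).trans (by omega)
  have hT'adj : IntermediateField.adjoin (RatFunc k) (T' : Set K) = ⊤ := by
    rw [eq_top_iff, ← hTadj]
    apply IntermediateField.adjoin.mono
    rw [hT']
    exact_mod_cast Finset.subset_insert a₀ T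
  obtain ⟨z, hzT, hzgen, hzc⟩ := Pool.Agent.W277.UD.exists_gen (k := k) (F := RatFunc k) (E := K)
    (T' : Set K) hT'adj a₀ (by rw [hT']; exact_mod_cast Finset.mem_insert_self a₀ T) ha₀c
  obtain ⟨Q, hker, hloss⟩ := hLB p k K z hzgen hzc
  -- the core theorem
  obtain ⟨u, w', a, b, c, e, s, hdet, hs, hconj, huw, humax, hsp, A, hA, hcoef, hnzc, n₂, hn₂,
    hn₂m, x, hx0, hx, hxx⟩ := hcore k K Om (fun j h1 h2 => hnz j h1 (by omega)) Q f g hco hmax hlat
      hrat hrat32 (by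
        intro u w' huw humax hcj
        by_contra hcon
        push Not at hcon
        exact hiso (conjConst_of_cj d f g u w' hf hg.le humax huw hcj
          (fun i => const_of_ht _ (hcon i).1) (fun i => const_of_ht _ (hcon i).2)))
  have hud : u.natDegree ≤ d := humax ▸ le_max_left _ _
  have hwd : w'.natDegree ≤ d := humax ▸ le_max_right _ _
  have hBA : (1 : ℤ) ≤ B * A := by
    have h1 : (1 : ℤ) ≤ B := by exact_mod_cast hB
    nlinarith
  -- the Moebius map
  have hpm : ∀ y ∈ P, hto Q (pt (Ph a b c e (y, 1))) ≤ 16 * (d + 1) ^ 2 * (B * A) := fun y hy =>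
    ht_prep d hd u w' humax huw (B * A) hBA (fun i => (hcoef i).1) (fun i => (hcoef i).2) _
      (P_fin_conj d (by omega) f g u w' hmax hco humax huw a b c e s hdet hs hconj P hP y hy)
  obtain ⟨t, hnt, ta, tb, tc, te⟩ := mob_entries a b c e hdet c₀ c₁ c₂ h01 h02 h12 _
    (hpm _ hc₀) (hpm _ hc₁) (hpm _ hc₂)
  obtain ⟨hdet', s', hs', hconj'⟩ := conj_scale d f g u w' a b c e s hdet hs hconj t hnt
  set a' := t * a with ha'
  set b' := t * b with hb'
  set c' := t * c with hc'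
  set e' := t * e with he'
  set E₁ : ℤ := cEM d B * A with hE₁
  have hE₁' : 7 * (16 * ((d : ℤ) + 1) ^ 2 * (B * A)) = E₁ := by
    rw [hE₁]
    unfold cEM
    push_cast
    ring
  rw [hE₁'] at ta tb tc te
  have hBE₁ : (B : ℤ) * A ≤ E₁ := by
    rw [← hE₁']
    exact mul_ge' _ _ (one_le_sq d) (by linarith)
  -- the coefficients
  obtain ⟨hfE, hgE⟩ := coef_conj d f g u w' hf hg hg1 a' b' c' e' s' hdet' hs' hconj' E₁
    ⟨hud, fun i => ((hcoef i).1).trans hBE₁⟩ ⟨hwd, fun i => ((hcoef i).2).trans hBE₁⟩ ta tb tc te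
  set E : ℤ := cE d B * A with hE
  have hEE : (cco d : ℤ) * E₁ = E := by
    rw [hE, hE₁]
    unfold cE
    push_cast
    ring
  rw [hEE] at hfE hgE
  have hE1 : 1 ≤ E := by
    rw [← hEE]
    have h1 : (1 : ℤ) ≤ cco d := by
      unfold cco
      push_cast
      have : (0 : ℤ) ≤ chc d := by positivity
      linarith
    nlinarith
  -- the heights of the generators
  have hP' : ∀ y ∈ P, ht Q y ≤ 128 * (d + 1) ^ 2 * E := by
    intro y hy
    have h1 := ht_prep d hd f g hmax hco E hE1 hfE.2 hgE.2 (some y)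
      (P_fin d (by omega) f g hmax hco P hP y hy)
    have h2 : hto Q (some y) = ht Q y := rfl
    rw [h2] at h1
    have h3 : (0 : ℤ) ≤ ((d : ℤ) + 1) ^ 2 * E := by positivity
    nlinarith
  have hTh : ∀ y ∈ T', ht Q y ≤ 128 * (d + 1) ^ 2 * E := by
    intro y hy
    rw [hT', Finset.mem_insert] at hy
    rcases hy with rfl | hy
    · have h3 : E ≤ 128 * ((d : ℤ) + 1) ^ 2 * E :=
        mul_ge _ _ _ (one_le_sq d) (by linarith) (by norm_num)
      rcases ha₀ with ⟨i, hi⟩ | ⟨i, hi⟩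
      · rw [hi]
        exact (hfE.2 i).trans h3
      · rw [hi]
        exact (hgE.2 i).trans h3
    · rcases hTG hy with h | h
      · exact hP' y h
      · exact ht_marked d m hd (fun j h1 h2 => hnzK j h1 (by omega)) f g hmax hco E hE1 hfE hgE y h
  have hzh : ht Q z ≤ (n + 1) * (128 * (d + 1) ^ 2 * E) := by
    refine (ht_span T' z hzT).trans ((Finset.sum_le_sum hTh).trans ?_)
    rw [Finset.sum_const, nsmul_eq_mul]
    apply mul_le_mul_of_nonneg_right _ (by positivity)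
    exact_mod_cast hT'n
  -- the loss
  have hlossE : Q.lossT ≤ cL d n * E := by
    obtain ⟨S, hS⟩ := exists_supp (Q := Q) {z}
    have h1 := hloss S (hS z (Finset.mem_singleton_self z)).1
    rw [← ht_eq z S (hS z (Finset.mem_singleton_self z)).1] at h1
    have h2 : (Module.finrank (RatFunc k) K : ℤ) ^ 3 ≤ (n : ℤ) ^ 3 :=
      pow_le_pow_left₀ (by positivity) (by exact_mod_cast hn) 3
    have h3 : 0 ≤ ht Q z := ht_nonneg z
    calc Q.lossT ≤ 8 * (Module.finrank (RatFunc k) K : ℤ) ^ 3 * ht Q z := h1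
      _ ≤ 8 * (n : ℤ) ^ 3 * ((n + 1) * (128 * (d + 1) ^ 2 * E)) := by
          apply mul_le_mul _ hzh h3 (by positivity)
          linarith
      _ ≤ cL d n * E := by
          unfold cL
          push_cast
          nlinarith
  -- the critical points
  have hsplit : (derivative f * g - f * derivative g).Splits := by
    have h1 := wr_splits (Om := Om) d m (by omega) hdO f g f g hmax hco hmax hrat 1 0 0 1 1
      (by simp) one_ne_zero (by
        intro Z
        have h2 : ∀ Y : K × K, Ph 1 0 0 1 Y = Y := by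
          intro Y
          unfold Ph
          simp
        rw [h2, h2, one_smul]) 1 le_rfl hm
    rw [itP_one d f g hf hg.le] at h1
    exact h1
  have hW0 : derivative f * g - f * derivative g ≠ 0 := by
    intro h0
    obtain ⟨g1, g2⟩ := wr_zero f g (fun j h1 h2 => hnzK j h1 (by omega)) hco h0
    omega
  obtain ⟨Cr, hCr, hr1, hr2⟩ := crt K d hd f g hmax hco hW0 hsplit
  -- the growth
  obtain ⟨J, hJ⟩ : ∃ J : ℕ, J + 1 = cJ d m B := by
    have h1 : 1 ≤ cJ d m B := by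
      unfold cJ cEM
      have h2 : 0 < d ^ m := pow_pos (by omega) m
      have h3 : 0 < (d + 1) ^ 2 := by positivity
      have h4 : 0 < 32 * (7 * (16 * (d + 1) ^ 2 * B)) := by positivity
      have h5 : 0 < 2 * d ^ m * (16 * (d + 1) ^ 2 * cE d B + 32 * (7 * (16 * (d + 1) ^ 2 * B))) :=
        Nat.mul_pos (by positivity) (by omega)
      omega
    exact ⟨cJ d m B - 1, by omega⟩
  have hxJ : 16 * (d + 1) ^ 2 * E + 32 * E₁ ≤ ht Q (x (J + 1)) := by
    have h1 := hxx J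
    have h2 : ((J : ℤ) + 1) = 2 * d ^ m * (16 * (d + 1) ^ 2 * cE d B + 32 * cEM d B) := by
      have : ((J + 1 : ℕ) : ℤ) = ((cJ d m B : ℕ) : ℤ) := by rw [hJ]
      unfold cJ at this
      push_cast at this
      exact this
    rw [h2] at h1
    push_cast at h1
    have h3 : (2 * (d : ℤ) ^ n₂) * ht Q (x (J + 1)) ≤ (2 * (d : ℤ) ^ m) * ht Q (x (J + 1)) := by
      apply mul_le_mul_of_nonneg_right _ (ht_nonneg _)
      have : (d : ℤ) ^ n₂ ≤ (d : ℤ) ^ m := pow_le_pow_right₀ (by exact_mod_cast (by omega : 1 ≤ d)) hn₂m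
      linarith
    have h4 : (2 * (d : ℤ) ^ m) * (16 * (d + 1) ^ 2 * E + 32 * E₁) ≤
        (2 * (d : ℤ) ^ m) * ht Q (x (J + 1)) := by
      refine le_trans (le_of_eq ?_) (h1.trans h3)
      rw [hE, hE₁]
      ring
    exact le_of_mul_le_mul_left h4 (by positivity)
  obtain ⟨i, j₁, hj₁, hgrow⟩ := growth_crit d hd hdK f g u w' hmax hco humax huw a' b' c' e' s'
    hdet' hs' hconj' E₁ E ta tb tc te hfE hgE n₂ hn₂ x hx0 hx J hxJ Cr hCr hr1 hr2
  obtain ⟨T₀, hT₀P, hT₀c, α, β, γ, hric⟩ := hN k K hdk Q f g hf hg hco Cr hCr P hP E hE1 hfE hgE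
    hlossE ⟨i, j₁, hj₁.trans (by rw [hJ]; exact Nat.mul_le_mul_right _ hn₂m), hgrow⟩ hcard
  refine ⟨T₀, hT₀P, hT₀c, ?_⟩
  intro x₀ hx₀ x₁ hx₁ x₂ hx₂ y hy h01' h02' h12'
  exact hker _ (cr_riccati Q.D α β γ x₀ x₁ x₂ y h01' h02' h12' (hric x₀ hx₀) (hric x₁ hx₁)
    (hric x₂ hx₂) (hric y hy))

end Pool.Agent.E8helper65.CM
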