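import Pool.Agent.E8helper71.CP.Cst
import Pool.Agent.E8helper71.CP.Few7
import Pool.Agent.E8helper65.CM.KL

/-!
# The main inequality over a field generated by points
-/

set_option linter.unusedSectionVars false
set_option linter.unusedVariables false

namespace Pool.Agent.E8helper71.CP.Few

open Polynomial Finset
open Pool.Agent.W277.UH Pool.Agent.Y706.CH Pool.Agent.Y195.CH Pool.Agent.Y676.CH
open Pool.Agent.E8helper88.Mul
open Pool.Agent.TH951.P (cP cQ La mb cr)
open Pool.Agent.TH951.W.UH (ConjConst)

universe u v

section
variable {E : Type*} [Field E] {K : Type*} [Field K]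

lemma WP_map (φ : E →+* K) (d m : ℕ) (p q : E[X]) :
    WP d m (p.map φ) (q.map φ) = (WP d m p q).map φ := by
  unfold WP
  rw [Polynomial.map_prod]
  apply Finset.prod_congr rfl
  intro n _
  rw [itP_map, itP_map]
  simp only [wr_map, Polynomial.map_mul, Polynomial.map_sub]

lemma WQ_map (φ : E →+* K) (d : ℕ) (p q : E[X]) :
    WQ d (p.map φ) (q.map φ) = (WQ d p q).map φ := by
  unfold WQ
  rw [itP_map, itP_map]
  simp only [Polynomial.map_mul, Polynomial.map_sub]

end

/-- **The field of the marked points**, with its generators. -/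
theorem exists_M3 (d m : ℕ) (hd : 2 ≤ d) (hm : 1 ≤ m) (L : Type u) [Field L] [Infinite L]
    (hP : ∀ j : ℕ, 1 ≤ j → j ≤ d ^ m → (j : L) ≠ 0) (Om : Type v)
    [Field Om] [Algebra L Om] (p q : L[X])
    (hmax : max p.natDegree q.natDegree = d) (hco : IsCoprime p q) :
    ∃ M : IntermediateField L Om,
      M = IntermediateField.adjoin L ((WP d m p q * WQ d p q).rootSet Om) ∧
      FiniteDimensional L M ∧
      Module.finrank L M ≤ (wpd2 d m + 1) ^ wpd2 d m ∧
      RatPts Om d m (p.map (algebraMap L M)) (q.map (algebraMap L M)) ∧
      Rat32 Om d (p.map (algebraMap L M)) (q.map (algebraMap L M)) := by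
  set W := WP d m p q * WQ d p q with hW
  have hW0 : W ≠ 0 := mul_ne_zero (Pool.Agent.E8helper65.CM.WP_ne d hd m hP p q hmax hco)
    (Pool.Agent.E8helper65.CM.WQ_ne d hd p q hmax hco)
  have hWd : W.natDegree ≤ wpd2 d m :=
    natDegree_mul_le.trans (add_le_add (WP_deg d m p q) (WQ_deg d p q))
  obtain ⟨hfd, hfr⟩ := Pool.Agent.Y555.CH.t_DEG L Om W (wpd2 d m) hW0 hWd
  refine ⟨IntermediateField.adjoin L (W.rootSet Om), rfl, hfd, hfr, ?_, ?_⟩
  · set M := IntermediateField.adjoin L (W.rootSet Om) with hM
    have hd0 : (d : Om) ≠ 0 := by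
      have h1 := hP d (by omega) (Nat.le_self_pow (by omega) d)
      intro h2
      apply h1
      apply (algebraMap L Om).injective
      rw [map_natCast, h2, map_zero]
    intro n hn hnm Z hZ hprop
    have emap : ∀ f : L[X], (f.map (algebraMap L M)).map (algebraMap M Om) =
        f.map (algebraMap L Om) := by
      intro f
      rw [Polynomial.map_map, ← IsScalarTower.algebraMap_eq]
    rw [emap, emap] at hprop
    apply rat_of_root M Z hZ
    intro x t ht hZt'
    have hroot : aeval x W = 0 := by
      rw [hW, map_mul]
      apply mul_eq_zero_of_left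
      unfold WP
      rw [map_prod]
      apply Finset.prod_eq_zero (Finset.mem_Icc.mpr ⟨hn, hnm⟩)
      rw [map_mul, mul_eq_zero]
      have e1 := itP_map (algebraMap L Om) d p q n
      have e2 := itP_map (algebraMap L Om) d p q (2 * n)
      rcases hprop with h | h
      · left
        rw [hZt', FH_iter_smul, FH_iter_smul, wd_smul_left', wd_smul_right'] at h
        have h2 := (mul_eq_zero.mp ((mul_eq_zero.mp h).resolve_left
          (pow_ne_zero _ ht))).resolve_left (pow_ne_zero _ ht)
        rw [← itP_eval, ← itP_eval, e1, e2] at h2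
        unfold wd at h2
        simp only at h2
        rw [map_sub, map_mul, map_mul]
        simp only [← eval_map_algebraMap]
        exact h2
      · right
        have h1 := Pool.Agent.E8helper88.Mul.prod_smul d (by omega) (p.map (algebraMap L Om)) (q.map (algebraMap L Om)) n t
          ((x, 1) : Om × Om)
        rw [← hZt', h, mul_zero] at h1
        have h2 := (mul_eq_zero.mp h1.symm).resolve_left (pow_ne_zero _ ht)
        have hp : (p.map (algebraMap L Om)).natDegree ≤ d :=
          natDegree_map_le.trans (hmax ▸ le_max_left _ _)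
        have hq : (q.map (algebraMap L Om)).natDegree ≤ d :=
          natDegree_map_le.trans (hmax ▸ le_max_right _ _)
        rw [← Pool.Agent.E8helper65.CM.itP_wr d (by omega) hd0 _ _ hp hq, e1, wr_map] at h2
        rw [← eval_map_algebraMap]
        exact h2
    apply IntermediateField.subset_adjoin
    rw [mem_rootSet]
    exact ⟨hW0, hroot⟩
  · set M := IntermediateField.adjoin L (W.rootSet Om) with hM
    intro Z hZ h
    have emap : ∀ f : L[X], (f.map (algebraMap L M)).map (algebraMap M Om) =
        f.map (algebraMap L Om) := by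
      intro f
      rw [Polynomial.map_map, ← IsScalarTower.algebraMap_eq]
    rw [emap, emap] at h
    apply rat_of_root M Z hZ
    intro x t ht hZt'
    have hroot : aeval x W = 0 := by
      rw [hW, map_mul]
      apply mul_eq_zero_of_right
      have e1 := itP_map (algebraMap L Om) d p q 3
      have e2 := itP_map (algebraMap L Om) d p q 2
      rw [hZt', FH_iter_smul, FH_iter_smul, wd_smul_left', wd_smul_right'] at h
      have h2 := (mul_eq_zero.mp ((mul_eq_zero.mp h).resolve_left
        (pow_ne_zero _ ht))).resolve_left (pow_ne_zero _ ht)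
      rw [← itP_eval, ← itP_eval, e1, e2] at h2
      unfold wd at h2
      simp only at h2
      unfold WQ
      rw [map_sub, map_mul, map_mul]
      simp only [← eval_map_algebraMap]
      exact h2
    apply IntermediateField.subset_adjoin
    rw [mem_rootSet]
    exact ⟨hW0, hroot⟩

/-- extensions of small degree are separable -/
lemma sep_of_small (p : ℕ) [hp : Fact p.Prime] (E K : Type*) [Field E] [CharP E p] [Field K]
    [Algebra E K] [FiniteDimensional E K] (h : Module.finrank E K < p) :
    Algebra.IsSeparable E K := by
  refine ⟨fun x => ?_⟩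
  have hint : IsIntegral E x := Algebra.IsIntegral.isIntegral x
  have hirr := minpoly.irreducible hint
  have hle : (minpoly E x).natDegree ≤ Module.finrank E K := minpoly.natDegree_le x
  show (minpoly E x).Separable
  rw [Polynomial.separable_iff_derivative_ne_zero hirr]
  intro h0
  have hpos : 0 < (minpoly E x).natDegree := minpoly.natDegree_pos hint
  have h1 := congrArg (fun f : E[X] => f.coeff ((minpoly E x).natDegree - 1)) h0
  simp only [coeff_derivative, coeff_zero] at h1
  have h2 : (minpoly E x).natDegree - 1 + 1 = (minpoly E x).natDegree := by omega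
  rw [h2, coeff_natDegree, (minpoly.monic hint).leadingCoeff, one_mul, ← Nat.cast_succ,
    Nat.succ_eq_add_one, h2, CharP.cast_eq_zero_iff E p] at h1
  have := Nat.le_of_dvd hpos h1
  omega

lemma root_of_sep (p : ℕ) [hp : Fact p.Prime] (E K : Type*) [Field E] [CharP E p] [Field K]
    [Algebra E K] [Algebra.IsSeparable E K] (y : K) (x : E) (h : y ^ p = algebraMap E K x) :
    ∃ z : E, z ^ p = x := by
  haveI : ExpChar E p := ExpChar.prime hp.out
  have h1 : y ∈ perfectClosure E K := by
    rw [mem_perfectClosure_iff_pow_mem p]
    exact ⟨1, x, by rw [pow_one, h]⟩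
  rw [perfectClosure.eq_bot_of_isSeparable] at h1
  obtain ⟨z, hz⟩ := IntermediateField.mem_bot.mp h1
  refine ⟨z, (algebraMap E K).injective ?_⟩
  rw [map_pow, hz, h]

end Pool.Agent.E8helper71.CP.Few
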