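import Pool.Agent.E8helper71.CP.LLa
import Pool.Agent.E8helper71.CP.KLu

/-!
# The main inequality over a field generated by points
-/

set_option linter.unusedSectionVars false
set_option linter.unusedVariables false

namespace Pool.Agent.E8helper71.CP.Few

open Polynomial Finset
open Pool.Agent.W277.UH Pool.Agent.Y706.CH Pool.Agent.Y195.CH Pool.Agent.Y676.CH
open Pool.Agent.E8helper88.Mul
open Pool.Agent.TH951.P (cP cQ La mb cr)

universe u v

lemma cc_iff {k K : Type*} [Field k] [Field K] [Algebra k K] (f g : K[X]) (d : ℕ) :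
    Pool.Agent.W277.UH.ConjConst k f g d ↔ Pool.Agent.TH951.W.UH.ConjConst k f g d := Iff.rfl

/-- the generators -/
lemma adj_top {F E : Type u} {Om : Type v} [Field F] [Field E] [Algebra F E] [Field Om]
    [Algebra E Om] (W : E[X]) (hW : W ≠ 0) (M : IntermediateField E Om)
    (hM : M = IntermediateField.adjoin E (W.rootSet Om)) [Algebra F M] [IsScalarTower F E M]
    (P : Set E) (hP : IntermediateField.adjoin F P = ⊤) :
    IntermediateField.adjoin F ((algebraMap E M) '' P ∪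
      {x | (W.map (algebraMap E M)).eval x = 0}) = ⊤ := by
  set A := IntermediateField.adjoin F ((algebraMap E M) '' P ∪
      {x | (W.map (algebraMap E M)).eval x = 0}) with hA
  have h1 : ∀ e : E, algebraMap E M e ∈ A := by
    have h2 : IntermediateField.adjoin F P ≤ A.comap (IsScalarTower.toAlgHom F E M) := by
      rw [IntermediateField.adjoin_le_iff]
      intro x hx
      show algebraMap E M x ∈ A
      apply IntermediateField.subset_adjoin
      exact Or.inl ⟨x, hx, rfl⟩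
    intro e
    have h3 : e ∈ IntermediateField.adjoin F P := by
      rw [hP]
      exact IntermediateField.mem_top
    exact h2 h3
  rw [eq_top_iff]
  rintro ⟨x, hx⟩ -
  have hx' := hx
  rw [hM] at hx'
  have h4 : ∀ y ∈ IntermediateField.adjoin E (W.rootSet Om), ∀ hy : y ∈ M, (⟨y, hy⟩ : M) ∈ A := by
    intro y hy
    induction hy using IntermediateField.adjoin_induction with
    | mem y hy' =>
      intro hyM
      apply IntermediateField.subset_adjoin
      right
      rw [mem_rootSet] at hy'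
      show (W.map (algebraMap E M)).eval _ = 0
      rw [eval_map_algebraMap]
      apply (algebraMap M Om).injective
      rw [← aeval_algebraMap_apply, map_zero]
      exact hy'.2
    | algebraMap e =>
      intro hyM
      exact h1 e
    | add a b ha hb iha ihb =>
      intro hyM
      rw [← hM] at ha hb
      exact add_mem (iha ha) (ihb hb)
    | inv a ha iha =>
      intro hyM
      rw [← hM] at ha
      exact inv_mem (iha ha)
    | mul a b ha hb iha ihb =>
      intro hyM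
      rw [← hM] at ha hb
      exact mul_mem (iha ha) (ihb hb)
  exact h4 x hx' hx

/-- the descent of the conclusion from the field of the marked points -/
lemma top_aux (d m n' N : ℕ) (hd : 2 ≤ d) (p : ℕ) [hpf : Fact p.Prime]
    (k E K Om : Type u) [Field k] [IsAlgClosed k] [CharP k p]
    [Field E] [CharP E p] [Algebra k E] [DecidableEq E]
    [Field K] [CharP K p] [Algebra k K] [Algebra (RatFunc k) K] [IsScalarTower k (RatFunc k) K]
    [FiniteDimensional (RatFunc k) K] [Algebra.IsSeparable (RatFunc k) K] [Field Om]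
    [IsAlgClosed Om] [Algebra K Om] [Algebra E K] [IsScalarTower k E K]
    [Algebra.IsSeparable E K]
    (hKL : ∀ [DecidableEq K], ∀ f g : K[X], f.natDegree ≤ d → g.natDegree = d →
      g.Monic → IsCoprime f g → ¬ Pool.Agent.W277.UH.ConjConst k f g d →
      ¬ LatF d (f.map (algebraMap K Om)) (g.map (algebraMap K Om)) →
      RatPts Om d m f g → Rat32 Om d f g → ∀ P : Finset K,
      (∀ z ∈ P, g.eval z ≠ 0 ∧ f.eval z / g.eval z ∈ P) →
      (∃ c₀ c₁ c₂ : k, c₀ ≠ c₁ ∧ c₀ ≠ c₂ ∧ c₁ ≠ c₂ ∧ algebraMap k K c₀ ∈ P ∧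
        algebraMap k K c₁ ∈ P ∧ algebraMap k K c₂ ∈ P) →
      IntermediateField.adjoin (RatFunc k)
        ((P : Set K) ∪ {x | (WP d m f g * WQ d f g).eval x = 0}) = ⊤ →
      N ≤ P.card → ∃ T ⊆ P, (d + 1) * (P \ T).card + (3 * d + 4) ≤ P.card ∧
        ∀ x₀ ∈ T, ∀ x₁ ∈ T, ∀ x₂ ∈ T, ∀ x ∈ T, x₀ ≠ x₁ → x₀ ≠ x₂ → x₁ ≠ x₂ →
          ∃ y : K, y ^ p = cr x₀ x₁ x₂ x)
    (f g : E[X]) (hf : f.natDegree ≤ d) (hg : g.natDegree = d) (hg1 : g.Monic)
    (hco : IsCoprime f g) (hiso : ¬ Pool.Agent.W277.UH.ConjConst k f g d)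
    (hlat : ¬ LatF d ((f.map (algebraMap E K)).map (algebraMap K Om))
      ((g.map (algebraMap E K)).map (algebraMap K Om)))
    (hr1 : RatPts Om d m (f.map (algebraMap E K)) (g.map (algebraMap E K)))
    (hr2 : Rat32 Om d (f.map (algebraMap E K)) (g.map (algebraMap E K)))
    (P : Finset E) (hP : ∀ z ∈ P, g.eval z ≠ 0 ∧ f.eval z / g.eval z ∈ P)
    (hc : ∃ c₀ c₁ c₂ : k, c₀ ≠ c₁ ∧ c₀ ≠ c₂ ∧ c₁ ≠ c₂ ∧ algebraMap k E c₀ ∈ P ∧
      algebraMap k E c₁ ∈ P ∧ algebraMap k E c₂ ∈ P)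
    (hadj : IntermediateField.adjoin (RatFunc k) ((algebraMap E K) '' (P : Set E) ∪
      {x | ((WP d m f g * WQ d f g).map (algebraMap E K)).eval x = 0}) = ⊤)
    (hN : N ≤ P.card) (hN3 : 3 * d + 4 ≤ P.card) :
    ∃ T ⊆ P, (d + 1) * (P \ T).card + (3 * d + 4) ≤ P.card ∧
      ∀ x₀ ∈ T, ∀ x₁ ∈ T, ∀ x₂ ∈ T, ∀ x ∈ T, x₀ ≠ x₁ → x₀ ≠ x₂ → x₁ ≠ x₂ →
        ∃ y : E, y ^ p = cr x₀ x₁ x₂ x := by
  classical
  set ι := algebraMap E K with hι
  have hιi : Function.Injective ι := ι.injective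
  have hfK : (f.map ι).natDegree ≤ d := natDegree_map_le.trans hf
  have hgK : (g.map ι).natDegree = d := by rw [natDegree_map, hg]
  have hcoK : IsCoprime (f.map ι) (g.map ι) := (Polynomial.isCoprime_map ι).mpr hco
  set PK : Finset K := P.image ι with hPK
  have hPKst : ∀ z ∈ PK, (g.map ι).eval z ≠ 0 ∧ (f.map ι).eval z / (g.map ι).eval z ∈ PK := by
    intro z hz
    obtain ⟨x, hx, rfl⟩ := Finset.mem_image.mp hz
    obtain ⟨g1, g2⟩ := hP x hx
    rw [eval_map_apply, eval_map_apply, ← map_div₀]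
    exact ⟨(_root_.map_ne_zero ι).mpr g1, Finset.mem_image_of_mem _ g2⟩
  have hcrmap : ∀ x0 x1 x2 x : E, cr (ι x0) (ι x1) (ι x2) (ι x) = ι (cr x0 x1 x2 x) := by
    intro x0 x1 x2 x
    unfold cr
    simp only [map_div₀, map_mul, map_sub]
  have hisoK : ¬ Pool.Agent.W277.UH.ConjConst k (f.map ι) (g.map ι) d := by
    intro h
    apply hiso
    have h1 := cross_const d hd _ _ hfK hgK hcoK ((cc_iff _ _ _).mp h) PK hPKst
    rw [cc_iff]
    apply Pool.Agent.TH951.W.UH.conj_of_cross f g d hf hg hd hco P hP P (Finset.Subset.refl _)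
    · intro x0 h0 x1 h1' x2 h2 x hx _ _ _ _ _
      obtain ⟨s, hs⟩ := h1 (ι x0) (Finset.mem_image_of_mem _ h0) (ι x1)
        (Finset.mem_image_of_mem _ h1') (ι x2) (Finset.mem_image_of_mem _ h2) (ι x)
        (Finset.mem_image_of_mem _ hx)
      refine ⟨s, hιi ?_⟩
      rw [hι, ← IsScalarTower.algebraMap_apply k E K, ← hι, hs, hcrmap]
      rfl
    · rw [Finset.sdiff_self, Finset.card_empty, mul_zero, zero_add]
      exact hN3
  obtain ⟨c0, c1, c2, h01, h02, h12, g0, g1, g2⟩ := hc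
  have hcard : PK.card = P.card := Finset.card_image_of_injective _ hιi
  obtain ⟨T, hTP, hTc, hTcr⟩ := hKL (f.map ι) (g.map ι) hfK hgK (hg1.map ι) hcoK hisoK hlat hr1
    hr2 PK hPKst ⟨c0, c1, c2, h01, h02, h12, by
      rw [IsScalarTower.algebraMap_apply k E K]
      exact Finset.mem_image_of_mem _ g0, by
      rw [IsScalarTower.algebraMap_apply k E K]
      exact Finset.mem_image_of_mem _ g1, by
      rw [IsScalarTower.algebraMap_apply k E K]
      exact Finset.mem_image_of_mem _ g2⟩ (by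
      rw [WP_map, WQ_map, ← Polynomial.map_mul, hPK, Finset.coe_image]
      exact hadj) (by rw [hcard]; exact hN)
  refine ⟨P.filter fun x => ι x ∈ T, Finset.filter_subset _ _, ?_, ?_⟩
  · have h1 : (P \ P.filter fun x => ι x ∈ T).card = (PK \ T).card := by
      rw [← Finset.card_image_of_injective _ hιi]
      congr 1
      ext z
      simp only [Finset.mem_image, Finset.mem_sdiff, Finset.mem_filter, hPK, not_and]
      constructor
      · rintro ⟨x, ⟨hx, hxT⟩, rfl⟩
        exact ⟨⟨x, hx, rfl⟩, hxT hx⟩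
      · rintro ⟨⟨x, hx, rfl⟩, hxT⟩
        exact ⟨x, ⟨hx, fun _ => hxT⟩, rfl⟩
    rw [h1, ← hcard]
    exact hTc
  · intro x0 h0 x1 h1 x2 h2 x hx n01 n02 n12
    rw [Finset.mem_filter] at h0 h1 h2 hx
    obtain ⟨y, hy⟩ := hTcr _ h0.2 _ h1.2 _ h2.2 _ hx.2 (fun h => n01 (hιi h))
      (fun h => n02 (hιi h)) (fun h => n12 (hιi h))
    rw [hcrmap] at hy
    exact root_of_sep p E K y _ hy

/-- **The main inequality over a field generated by points.** -/
theorem top (hM : S_MCM.{u}) (d : ℕ) (hd : 2 ≤ d) : ∃ P0 : ℕ, ∀ n : ℕ, ∃ N : ℕ,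
    ∀ (p : ℕ) [Fact p.Prime] (hp : P0 < p) (k E Om : Type u) [Field k] [IsAlgClosed k]
    [CharP k p] [Field E] [CharP E p] [Algebra k E] [Algebra (RatFunc k) E]
    [IsScalarTower k (RatFunc k) E] [FiniteDimensional (RatFunc k) E]
    [Algebra.IsSeparable (RatFunc k) E] [Field Om] [IsAlgClosed Om] [Algebra E Om]
    [DecidableEq E],
    Module.finrank (RatFunc k) E ≤ n → ∀ f g : E[X], f.natDegree ≤ d → g.natDegree = d →
    g.Monic → IsCoprime f g → ¬ Pool.Agent.W277.UH.ConjConst k f g d →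
    ¬ LatF d (f.map (algebraMap E Om)) (g.map (algebraMap E Om)) → ∀ P : Finset E,
    (∀ z ∈ P, g.eval z ≠ 0 ∧ f.eval z / g.eval z ∈ P) →
    (∃ c₀ c₁ c₂ : k, c₀ ≠ c₁ ∧ c₀ ≠ c₂ ∧ c₁ ≠ c₂ ∧ algebraMap k E c₀ ∈ P ∧
      algebraMap k E c₁ ∈ P ∧ algebraMap k E c₂ ∈ P) →
    IntermediateField.adjoin (RatFunc k) (P : Set E) = ⊤ →
    N ≤ P.card → ∃ T ⊆ P, (d + 1) * (P \ T).card + (3 * d + 4) ≤ P.card ∧
      ∀ x₀ ∈ T, ∀ x₁ ∈ T, ∀ x₂ ∈ T, ∀ x ∈ T, x₀ ≠ x₁ → x₀ ≠ x₂ → x₁ ≠ x₂ →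
        ∃ y : E, y ^ p = cr x₀ x₁ x₂ x := by
  classical
  obtain ⟨m, P1, hm, hK⟩ := Pool.Agent.E8helper65.CM.K_levelU.{u} hM d hd
  refine ⟨P1 + d ^ m + (wpd2 d m + 1) ^ wpd2 d m, fun n => ?_⟩
  obtain ⟨N, hN⟩ := hK (n * (wpd2 d m + 1) ^ wpd2 d m)
  refine ⟨max N (3 * d + 4), ?_⟩
  intro p hpf hp k E Om _ _ _ _ _ _ _ _ _ _ _ _ _ _ hn f g hf hg hg1 hco hiso hlat P hP hc hadj
    hcard
  have hmax : max f.natDegree g.natDegree = d := by rw [hg]; exact max_eq_right hf
  haveI : Infinite k := IsAlgClosed.instInfinite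
  haveI : Infinite E := Infinite.of_injective _ (algebraMap k E).injective
  have hnz : ∀ j : ℕ, 1 ≤ j → j ≤ d ^ m → (j : E) ≠ 0 := by
    intro j h1 h2 h3
    rw [CharP.cast_eq_zero_iff E p] at h3
    have := Nat.le_of_dvd (by omega) h3
    omega
  obtain ⟨M, hMe, hfd, hfr, hr1, hr2⟩ := exists_M3 d m hd hm E hnz Om f g hmax hco
  have hW0 : WP d m f g * WQ d f g ≠ 0 :=
    mul_ne_zero (Pool.Agent.E8helper65.CM.WP_ne d hd m hnz f g hmax hco)
      (Pool.Agent.E8helper65.CM.WQ_ne d hd f g hmax hco)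
  letI a1 : Algebra (RatFunc k) M :=
    ((algebraMap E M).comp (algebraMap (RatFunc k) E)).toAlgebra
  letI a2 : Algebra k M := ((algebraMap E M).comp (algebraMap k E)).toAlgebra
  haveI t1 : IsScalarTower (RatFunc k) E M := IsScalarTower.of_algebraMap_eq fun x => rfl
  haveI t2 : IsScalarTower k E M := IsScalarTower.of_algebraMap_eq fun x => rfl
  haveI t3 : IsScalarTower k (RatFunc k) M := IsScalarTower.of_algebraMap_eq fun x => by
    show algebraMap E M (algebraMap k E x) = algebraMap E M (algebraMap (RatFunc k) E _)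
    rw [IsScalarTower.algebraMap_apply k (RatFunc k) E]
  haveI : CharP M p := (RingHom.charP_iff (algebraMap E M) (algebraMap E M).injective p).mp
    inferInstance
  haveI : FiniteDimensional (RatFunc k) M := Module.Finite.trans E M
  haveI : Algebra.IsSeparable E M := sep_of_small p E M (by omega)
  haveI : Algebra.IsSeparable (RatFunc k) M := Algebra.IsSeparable.trans (RatFunc k) E M
  have hfin : Module.finrank (RatFunc k) M ≤ n * (wpd2 d m + 1) ^ wpd2 d m := by
    rw [← Module.finrank_mul_finrank (RatFunc k) E M]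
    exact Nat.mul_le_mul hn hfr
  have hcomp : ∀ h : E[X], (h.map (algebraMap E M)).map (algebraMap M Om) =
      h.map (algebraMap E Om) := by
    intro h
    rw [Polynomial.map_map, ← IsScalarTower.algebraMap_eq]
  refine top_aux d m n N hd p k E M Om ?_ f g hf hg hg1 hco hiso (by rw [hcomp, hcomp]; exact hlat)
    hr1 hr2 P hP hc (adj_top _ hW0 M hMe P hadj) (by omega) (by omega)
  intro _ f' g' h1 h2 h3 h4 h5 h6 h7 h8 P' h9 h10 h11 h12
  exact hN p (by omega) k M Om hfin f' g' h1 h2 h3 h4 h5 h6 h7 h8 P' h9 h10 h11 h12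

end Pool.Agent.E8helper71.CP.Few
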