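import Pool.Agent.E8helper71.CP.LLb

/-!
# The main inequality over a function field of bounded degree
-/

set_option linter.unusedSectionVars false
set_option linter.unusedVariables false

namespace Pool.Agent.E8helper71.CP.Few

open Polynomial Finset
open Pool.Agent.TH951.P
open Pool.Agent.TH951.W.UH (ConjConst)
open Pool.Agent.E8helper88.Mul (LatF S_MCM)

universe u v

set_option maxHeartbeats 4000000 in
theorem LL (hM : S_MCM.{u}) (d : ℕ) (hd : 2 ≤ d) : ∃ P0 : ℕ, ∀ n : ℕ, ∃ N : ℕ,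
    ∀ (p : ℕ) [Fact p.Prime] (hp : P0 < p) (k L Om : Type u) [Field k] [IsAlgClosed k]
    [CharP k p] [Field L] [CharP L p] [Algebra k L] [Algebra (RatFunc k) L]
    [IsScalarTower k (RatFunc k) L] [FiniteDimensional (RatFunc k) L]
    [Algebra.IsSeparable (RatFunc k) L] [Field Om] [IsAlgClosed Om] [Algebra L Om]
    [DecidableEq L],
    Module.finrank (RatFunc k) L ≤ n → ∀ P R : L[X], P.natDegree ≤ d → R.natDegree = d →
    IsCoprime P R → NLat Om d P R → ¬ ConjConst k P R d → ∀ S : Finset L,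
    (∀ z ∈ S, R.eval z ≠ 0 ∧ P.eval z / R.eval z ∈ S) → N ≤ S.card →
    ∃ T ⊆ S, (d + 1) * (S \ T).card + (3 * d + 4) ≤ S.card ∧
      ∀ x0 ∈ T, ∀ x1 ∈ T, ∀ x2 ∈ T, ∀ x ∈ T, x0 ≠ x1 → x0 ≠ x2 → x1 ≠ x2 → x ≠ x2 → x ≠ x0 →
        ∃ y : L, y ^ p = cr x0 x1 x2 x := by
  classical
  obtain ⟨P0, htop⟩ := top.{u} hM d hd
  refine ⟨P0 + d, fun n => ?_⟩
  obtain ⟨N, htop⟩ := htop n
  refine ⟨max N (3 * d + 4), ?_⟩
  intro p hpf hp k L Om _ _ _ _ _ _ _ _ _ _ _ _ _ _ hn p₁ q₁ hp₁ hq₁ hco hlat hiso S hS hcard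
  have hinf : Infinite k := IsAlgClosed.instInfinite
  have hinfL : Infinite L := Infinite.of_injective _ (algebraMap k L).injective
  have hinfO : Infinite Om := IsAlgClosed.instInfinite
  obtain ⟨y0, h0, y1, h1, y2, h2, h01, h02, h12⟩ := Finset.two_lt_card.mp
    (show 2 < S.card by omega)
  -- the field
  set W : Set L := (cr y0 y1 y2) '' (S : Set L) with hW
  set E : IntermediateField (RatFunc k) L := IntermediateField.adjoin (RatFunc k) W with hE
  have hWsub : W ⊆ E := IntermediateField.subset_adjoin _ _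
  have hE0 : ∀ y ∈ S, cr y0 y1 y2 y ∈ E := fun y hy => hWsub ⟨y, hy, rfl⟩
  have hkL : ∀ c : k, algebraMap k L c ∈ E := by
    intro c
    rw [IsScalarTower.algebraMap_apply k (RatFunc k) L]
    exact E.algebraMap_mem _
  -- the choice of `c`
  have hX : p₁ - X * q₁ ≠ 0 := by
    intro h
    have h1 : p₁ = X * q₁ := sub_eq_zero.mp h
    have hq0 : q₁ ≠ 0 := by
      rintro rfl
      rw [natDegree_zero] at hq₁
      omega
    rw [h1, natDegree_X_mul hq0, hq₁] at hp₁
    omega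
  set excl : Finset L := {(y1 - y2) / (y1 - y0)} ∪ (S.image (cr y0 y1 y2)) ∪
    ((p₁ - X * q₁).roots.toFinset.image (cr y0 y1 y2)) with hexcl
  obtain ⟨c₀, hc₀⟩ := Infinite.exists_notMem_finset
    (excl.preimage (algebraMap k L) (algebraMap k L).injective.injOn)
  rw [Finset.mem_preimage] at hc₀
  set c : L := algebraMap k L c₀ with hc
  have hc1 := hc₀
  rw [hexcl, Finset.mem_union, Finset.mem_union, not_or, not_or, Finset.mem_singleton] at hc1
  have n10 := sub_ne_zero.mpr h01.symm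
  have n12 := sub_ne_zero.mpr h12
  have hT : mT y0 y1 y2 c ≠ 0 := by
    intro h
    apply hc1.1.1
    rw [eq_div_iff n10]
    unfold mT at h
    exact (sub_eq_zero.mp h).symm
  set m := mM y0 y1 y2 c with hm
  set lam := mL y0 y1 y2 c with hlamd
  set ν := mN y0 y1 y2 c with hν
  have hlam : lam ≠ 0 := mL_ne h01 h02 h12 hT
  have hcrm : cr y0 y1 y2 m = c := cr_mM h01 h02 h12 hT
  have hm1 : ∀ y ∈ S, y ≠ m := by
    intro y hy h
    apply hc1.1.2
    rw [← hcrm, ← h]
    exact Finset.mem_image_of_mem _ hy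
  have hmf : p₁.eval m ≠ m * q₁.eval m := by
    intro h
    apply hc1.2
    rw [← hcrm]
    apply Finset.mem_image_of_mem
    rw [Multiset.mem_toFinset, mem_roots hX, IsRoot.def, eval_sub, eval_mul, eval_X, h, sub_self]
  have hcE : c ∈ E := hkL c₀
  -- the scaling
  set s : L := ((cQ d 1 m lam ν p₁ q₁).leadingCoeff)⁻¹ with hs
  have hcQ1 : (cQ d 1 m lam ν p₁ q₁).natDegree = d :=
    cQ_degree hp₁ hq₁.le one_ne_zero hlam hmf
  have hcQ0 : cQ d 1 m lam ν p₁ q₁ ≠ 0 := by
    intro h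
    rw [h, natDegree_zero] at hcQ1
    omega
  have hs0 : s ≠ 0 := inv_ne_zero (leadingCoeff_ne_zero.mpr hcQ0)
  have hcQs : cQ d s m lam ν p₁ q₁ = C s * cQ d 1 m lam ν p₁ q₁ := by
    unfold cQ
    rw [C_1, one_mul]
  set pp := cP d s m lam ν p₁ q₁ with hpp
  set qq := cQ d s m lam ν p₁ q₁ with hqq
  have hqm : qq.Monic := by
    rw [hcQs, Monic, leadingCoeff_mul, leadingCoeff_C, hs,
      inv_mul_cancel₀ (leadingCoeff_ne_zero.mpr hcQ0)]
  have hppd : pp.natDegree ≤ d := cP_degree hlam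
  have hqqd : qq.natDegree = d := cQ_degree hp₁ hq₁.le hs0 hlam hmf
  have hcoq : IsCoprime pp qq := c_coprime (by omega) hp₁ hq₁ hco hs0 hlam
  -- points
  have hmbv : ∀ y ∈ S, y ≠ y2 → mb m lam ν y = (cr y0 y1 y2 y - c)⁻¹ := fun y hy hy2 =>
    mb_psi h01 hT hy2 (hm1 y hy)
  have hmbv2 : mb m lam ν y2 = 0 := mb_psi2 h02 h12 hT
  have hmbE : ∀ y ∈ S, mb m lam ν y ∈ E := by
    intro y hy
    by_cases hy2 : y = y2
    · rw [hy2, hmbv2]
      exact E.zero_mem
    · rw [hmbv y hy hy2]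
      exact E.inv_mem (E.sub_mem (hE0 y hy) hcE)
  set S' : Finset L := S.image (mb m lam ν) with hS'
  have hinj1 : Set.InjOn (mb m lam ν) (S : Set L) := fun a ha b hb h =>
    mb_inj hlam (hm1 a ha) (hm1 b hb) h
  have hcard' : S'.card = S.card := Finset.card_image_of_injOn hinj1
  have hst1 : ∀ z ∈ S', qq.eval z ≠ 0 ∧ pp.eval z / qq.eval z ∈ S' := by
    intro z hz
    obtain ⟨y, hy, rfl⟩ := Finset.mem_image.mp hz
    obtain ⟨g1, g2⟩ := hS y hy
    obtain ⟨e1, e2⟩ := c_eval (d := d) (s := s) (m := m) (lam := lam) (ν := ν) hp₁ hq₁.le hs0 hlam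
      (x := y) (hm1 y hy) g1 (hm1 _ g2)
    refine ⟨e1, ?_⟩
    rw [e2]
    exact Finset.mem_image_of_mem _ g2
  have hS'E : ∀ z ∈ S', z ∈ E := by
    intro z hz
    obtain ⟨y, hy, rfl⟩ := Finset.mem_image.mp hz
    exact hmbE y hy
  obtain ⟨p', q', hp', hq'⟩ := descend (E := E) d pp qq hppd hqqd hqm hcoq S' (by
    intro z hz
    exact ⟨⟨⟨z, hS'E z hz⟩, rfl⟩, (hst1 z hz).1, ⟨⟨_, hS'E _ (hst1 z hz).2⟩, rfl⟩⟩) (by
    rw [hcard']
    omega)
  have hst' : IsScalarTower k E L := IsScalarTower.of_algebraMap_eq fun c => rfl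
  haveI : CharP E p := (RingHom.charP_iff (algebraMap k E) (algebraMap k E).injective p).mp
    inferInstance
  haveI : ExpChar E p := ExpChar.prime hpf.out
  have hinfE : Infinite E := Infinite.of_injective _ (algebraMap k E).injective
  have hιi : Function.Injective (algebraMap E L) := (algebraMap E L).injective
  set PE : Finset E := S'.preimage (algebraMap E L) hιi.injOn with hPE
  have hmemE : ∀ z : E, z ∈ PE ↔ algebraMap E L z ∈ S' := fun z => Finset.mem_preimage
  have hcardE : PE.card = S.card := by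
    rw [← hcard']
    have h1 : PE.image (algebraMap E L) = S' := by
      ext z
      rw [Finset.mem_image]
      constructor
      · rintro ⟨w, hw, rfl⟩
        exact (hmemE w).mp hw
      · intro hz
        exact ⟨⟨z, hS'E z hz⟩, (hmemE _).mpr hz, rfl⟩
    rw [← h1, Finset.card_image_of_injective _ hιi]
  have hmap1 : ∀ (g : L[X]) (g' : E[X]), g'.map (algebraMap E L) = g → ∀ z : E,
      g.eval (algebraMap E L z) = algebraMap E L (g'.eval z) := by
    intro g g' hg z
    rw [← hg, eval_map_apply]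
  have hp'd : p'.natDegree ≤ d := by
    rw [← hp', natDegree_map] at hppd
    exact hppd
  have hq'd : q'.natDegree = d := by
    rw [← hq', natDegree_map] at hqqd
    exact hqqd
  have hq'm : q'.Monic := by
    rw [← hq'] at hqm
    exact Polynomial.monic_of_injective hιi hqm
  have hco' : IsCoprime p' q' := by
    rw [← Polynomial.isCoprime_map (algebraMap E L), hp', hq']
    exact hcoq
  have hstE : ∀ z ∈ PE, q'.eval z ≠ 0 ∧ p'.eval z / q'.eval z ∈ PE := by
    intro z hz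
    obtain ⟨g1, g2⟩ := hst1 _ ((hmemE z).mp hz)
    rw [hmap1 qq q' hq' z] at g1 g2
    rw [hmap1 pp p' hp' z, ← map_div₀] at g2
    exact ⟨fun h => g1 (by rw [h, map_zero]), (hmemE _).mpr g2⟩
  -- the generators
  have hgen : IntermediateField.adjoin (RatFunc k) (PE : Set E) = ⊤ := by
    set WE : Set E := {w | (w : L) ∈ W} with hWEd
    have hgenW : IntermediateField.adjoin (RatFunc k) WE = ⊤ := by
      apply IntermediateField.lift_injective
      rw [IntermediateField.lift_adjoin, IntermediateField.lift_top]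
      have h1 : E.val '' WE = W := by
        ext w
        constructor
        · rintro ⟨y, hy, rfl⟩
          exact hy
        · intro hw
          exact ⟨⟨w, hWsub hw⟩, hw, rfl⟩
      have h2 : (Subtype.val : E → L) '' WE = W := h1
      rw [h2, hE]
    rw [eq_top_iff, ← hgenW, IntermediateField.adjoin_le_iff]
    set A := IntermediateField.adjoin (RatFunc k) (PE : Set E) with hA
    intro w hw
    obtain ⟨y, hy, hyw⟩ : (w : L) ∈ (cr y0 y1 y2) '' (S : Set L) := hw
    have hcA : (⟨c, hcE⟩ : E) ∈ A := by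
      have h3 : (⟨c, hcE⟩ : E) = algebraMap (RatFunc k) E (algebraMap k (RatFunc k) c₀) := by
        apply Subtype.ext
        show c = algebraMap (RatFunc k) L _
        rw [hc, IsScalarTower.algebraMap_apply k (RatFunc k) L]
      rw [h3]
      exact A.algebraMap_mem _
    by_cases hy2 : y = y2
    · have h3 : w = 0 := by
        apply Subtype.ext
        rw [← hyw, hy2]
        show cr y0 y1 y2 y2 = 0
        unfold cr
        rw [sub_self, zero_mul, div_zero]
      rw [h3]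
      exact A.zero_mem
    · have h3 : w = (⟨mb m lam ν y, hmbE y hy⟩ : E)⁻¹ + ⟨c, hcE⟩ := by
        apply Subtype.ext
        show (w : L) = (mb m lam ν y)⁻¹ + c
        rw [hmbv y hy hy2, inv_inv, sub_add_cancel, hyw]
      rw [h3]
      apply A.add_mem _ hcA
      apply A.inv_mem
      apply IntermediateField.subset_adjoin
      show (⟨mb m lam ν y, hmbE y hy⟩ : E) ∈ PE
      rw [hmemE]
      exact Finset.mem_image_of_mem _ hy
  have hnE : Module.finrank (RatFunc k) E ≤ n :=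
    le_trans (Submodule.finrank_le E.toSubalgebra.toSubmodule) hn
  -- three constants
  have hcr0 : cr y0 y1 y2 y0 = 0 := by
    unfold cr
    rw [sub_self, zero_mul, zero_div]
  have hcr1 : cr y0 y1 y2 y1 = 1 := by
    unfold cr
    rw [mul_comm, div_self (mul_ne_zero n12 n10)]
  have hconst : ∃ c₀ c₁ c₂ : k, c₀ ≠ c₁ ∧ c₀ ≠ c₂ ∧ c₁ ≠ c₂ ∧ algebraMap k E c₀ ∈ PE ∧
      algebraMap k E c₁ ∈ PE ∧ algebraMap k E c₂ ∈ PE := by
    have e0 : algebraMap k L ((0 - c₀)⁻¹) = mb m lam ν y0 := by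
      rw [hmbv y0 h0 h02, hcr0, map_inv₀, map_sub, map_zero]
    have e1 : algebraMap k L ((1 - c₀)⁻¹) = mb m lam ν y1 := by
      rw [hmbv y1 h1 h12, hcr1, map_inv₀, map_sub, map_one]
    have e2 : algebraMap k L 0 = mb m lam ν y2 := by
      rw [hmbv2, map_zero]
    refine ⟨(0 - c₀)⁻¹, (1 - c₀)⁻¹, 0, ?_, ?_, ?_, ?_, ?_, ?_⟩
    · intro h
      exact h01 (hinj1 h0 h1 (by rw [← e0, ← e1, h]))
    · intro h
      exact h02 (hinj1 h0 h2 (by rw [← e0, ← e2, h]))
    · intro h
      exact h12 (hinj1 h1 h2 (by rw [← e1, ← e2, h]))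
    · rw [hmemE, ← IsScalarTower.algebraMap_apply k E L, e0]
      exact Finset.mem_image_of_mem _ h0
    · rw [hmemE, ← IsScalarTower.algebraMap_apply k E L, e1]
      exact Finset.mem_image_of_mem _ h1
    · rw [hmemE, ← IsScalarTower.algebraMap_apply k E L, e2]
      exact Finset.mem_image_of_mem _ h2
  -- cross ratios
  have hmbcr : ∀ x0 ∈ S, ∀ x1 ∈ S, ∀ x2 ∈ S, ∀ x ∈ S, x ≠ x2 → x1 ≠ x0 →
      cr (mb m lam ν x0) (mb m lam ν x1) (mb m lam ν x2) (mb m lam ν x) = cr x0 x1 x2 x :=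
    fun x0 g0 x1 g1 x2 g2 x gx hx2 h10 => mb_cr hlam (hm1 _ g0) (hm1 _ g1) (hm1 _ g2) (hm1 _ gx)
      hx2 h10
  have hcrE : ∀ x0 x1 x2 x : E, algebraMap E L (cr x0 x1 x2 x) =
      cr (algebraMap E L x0) (algebraMap E L x1) (algebraMap E L x2) (algebraMap E L x) := by
    intro x0 x1 x2 x
    unfold cr
    simp only [map_div₀, map_mul, map_sub]
  have hpt : ∀ y, ∀ hy : y ∈ S, (⟨mb m lam ν y, hmbE y hy⟩ : E) ∈ PE := by
    intro y hy
    rw [hmemE]
    exact Finset.mem_image_of_mem _ hy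
  -- not isotrivial
  have hisoE : ¬ Pool.Agent.W277.UH.ConjConst k p' q' d := by
    intro h
    apply hiso
    have h5 := cross_const d hd _ _ hp'd hq'd hco' ((cc_iff _ _ _).mp h) PE hstE
    apply Pool.Agent.TH951.W.UH.conj_of_cross p₁ q₁ d hp₁ hq₁ hd hco S hS S (Finset.Subset.refl _)
    · intro x0 g0 x1 g1 x2 g2 x gx n01 n02 n12' nx2 nx0
      obtain ⟨t, ht⟩ := h5 _ (hpt x0 g0) _ (hpt x1 g1) _ (hpt x2 g2) _ (hpt x gx)
      refine ⟨t, ?_⟩
      have h6 := congrArg (algebraMap E L) ht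
      rw [← IsScalarTower.algebraMap_apply k E L, hcrE] at h6
      have h7 : cr (mb m lam ν x0) (mb m lam ν x1) (mb m lam ν x2) (mb m lam ν x) =
        cr x0 x1 x2 x := hmbcr x0 g0 x1 g1 x2 g2 x gx nx2 n01.symm
      rw [h6]
      exact h7
    · rw [Finset.sdiff_self, Finset.card_empty, mul_zero, zero_add]
      omega
  -- not Lattes
  have hlatE : ¬ LatF d (p'.map (algebraMap E Om)) (q'.map (algebraMap E Om)) := by
    intro hl
    apply hlat
    set ι := algebraMap L Om with hι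
    have hcomp : ∀ h : E[X], h.map (algebraMap E Om) = (h.map (algebraMap E L)).map ι := by
      intro h
      rw [Polynomial.map_map]
      rfl
    rw [hcomp, hcomp, hp', hq', hpp, hqq, ← Pool.Agent.TH951.P.cP_map,
      ← Pool.Agent.TH951.P.cQ_map] at hl
    have hdL : (d : L) ≠ 0 := by
      intro h3
      rw [CharP.cast_eq_zero_iff L p] at h3
      have := Nat.le_of_dvd (by omega) h3
      omega
    have hdO : (d : Om) ≠ 0 := by
      rw [← map_natCast ι]
      exact (_root_.map_ne_zero _).mpr hdL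
    have hRd : (q₁.map ι).natDegree = d := by rw [natDegree_map, hq₁]
    have hPd : (p₁.map ι).natDegree ≤ d := natDegree_map_le.trans hp₁
    have hs' : ι s ≠ 0 := (_root_.map_ne_zero _).mpr hs0
    have hlam' : ι lam ≠ 0 := (_root_.map_ne_zero _).mpr hlam
    have hm' : (p₁.map ι).eval (ι m) ≠ ι m * (q₁.map ι).eval (ι m) := by
      rw [eval_map_apply, eval_map_apply, ← map_mul]
      exact fun h => hmf (ι.injective h)
    refine Pool.Agent.E8helper65.CM.latF_conj d hd hdO (p₁.map ι) (q₁.map ι) _ _ ?_ ?_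
      (cj_mob d _ _ hPd hRd.le (ι s) (ι m) (ι lam) (ι ν) hs' hlam') hl
    · rw [hRd]
      exact max_eq_right hPd
    · rw [Pool.Agent.TH951.P.cQ_degree hPd hRd.le hs' hlam' hm']
      exact max_eq_right (Pool.Agent.TH951.P.cP_degree hlam')
  -- conclusion
  obtain ⟨T, hTP, hTc, hTcr⟩ := htop p (by omega) k E Om hnE p' q' hp'd hq'd hq'm hco' hisoE hlatE
    PE hstE hconst hgen (by rw [hcardE]; omega)
  refine ⟨S.filter fun y => ∃ t ∈ T, algebraMap E L t = mb m lam ν y, Finset.filter_subset _ _,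
    ?_, ?_⟩
  · have h3 : (S \ S.filter fun y => ∃ t ∈ T, algebraMap E L t = mb m lam ν y).card =
        (PE \ T).card := by
      have h4 : (S \ S.filter fun y => ∃ t ∈ T, algebraMap E L t = mb m lam ν y).image
          (mb m lam ν) = (PE \ T).image (algebraMap E L) := by
        ext z
        simp only [Finset.mem_image, Finset.mem_sdiff, Finset.mem_filter, not_and]
        constructor
        · rintro ⟨y, ⟨hy, hyT⟩, rfl⟩
          exact ⟨⟨mb m lam ν y, hmbE y hy⟩, ⟨hpt y hy, fun h => hyT hy ⟨_, h, rfl⟩⟩, rfl⟩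
        · rintro ⟨t, ⟨ht, htT⟩, rfl⟩
          obtain ⟨y, hy, hyt⟩ := Finset.mem_image.mp ((hmemE t).mp ht)
          refine ⟨y, ⟨hy, fun _ ⟨t', ht', hyt'⟩ => htT ?_⟩, hyt⟩
          rw [hyt] at hyt'
          rw [← hιi hyt']
          exact ht'
      rw [← Finset.card_image_of_injOn (hinj1.mono (by
        intro y hy
        exact (Finset.mem_sdiff.mp hy).1)), h4, Finset.card_image_of_injective _ hιi]
    rw [h3, ← hcardE]
    exact hTc
  · intro x0 g0 x1 g1 x2 g2 x gx n01 n02 n12' nx2 nx0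
    rw [Finset.mem_filter] at g0 g1 g2 gx
    obtain ⟨g0, t0, ht0, e0⟩ := g0
    obtain ⟨g1, t1, ht1, e1⟩ := g1
    obtain ⟨g2, t2, ht2, e2⟩ := g2
    obtain ⟨gx, tx, htx, ex⟩ := gx
    have key : ∀ {a b : L} {ta tb : E}, a ∈ S → b ∈ S → algebraMap E L ta = mb m lam ν a →
        algebraMap E L tb = mb m lam ν b → a ≠ b → ta ≠ tb := by
      intro a b ta tb ha hb h3 h4 hab h5
      apply hab
      apply hinj1 ha hb
      rw [← h3, ← h4, h5]
    obtain ⟨y, hy⟩ := hTcr t0 ht0 t1 ht1 t2 ht2 tx htx (key g0 g1 e0 e1 n01)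
      (key g0 g2 e0 e2 n02) (key g1 g2 e1 e2 n12')
    refine ⟨algebraMap E L y, ?_⟩
    rw [← map_pow, hy, hcrE, e0, e1, e2, ex]
    exact hmbcr x0 g0 x1 g1 x2 g2 x gx nx2 n01.symm

end Pool.Agent.E8helper71.CP.Few
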