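import Pool.Agent.E8helper71.CP.LLc

/-!
# The bound for stable sets over function fields of large characteristic
-/

set_option linter.unusedSectionVars false
set_option linter.unusedVariables false

namespace Pool.Agent.E8helper71.CP.Few

open Polynomial Finset
open Pool.Agent.TH951.P
open Pool.Agent.TH951.W.UH (ConjConst)
open Pool.Agent.E8helper88.Mul (LatF S_MCM)

universe u v

theorem card_L' (hM : S_MCM.{u}) (d : ℕ) (hd : 2 ≤ d) : ∃ P0 : ℕ, ∀ n : ℕ, ∃ B : ℕ,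
    ∀ (p : ℕ) [Fact p.Prime] (hp : P0 < p) (k L Om : Type u) [Field k] [IsAlgClosed k]
    [CharP k p] [Field L] [CharP L p] [Algebra k L] [Algebra (RatFunc k) L]
    [IsScalarTower k (RatFunc k) L] [FiniteDimensional (RatFunc k) L]
    [Algebra.IsSeparable (RatFunc k) L] [Field Om] [IsAlgClosed Om] [Algebra L Om],
    Module.finrank (RatFunc k) L ≤ n → ∀ P R : L[X], P.natDegree ≤ d → R.natDegree = d →
    IsCoprime P R → NLat Om d P R → ¬ ConjConst k P R d → ∀ S : Finset L,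
    (∀ z ∈ S, R.eval z ≠ 0 ∧ P.eval z / R.eval z ∈ S) → S.card ≤ B := by
  classical
  obtain ⟨P1, hLL⟩ := LL.{u} hM d hd
  refine ⟨P1 + d, fun n => ?_⟩
  obtain ⟨N₁, hLL⟩ := hLL n
  obtain ⟨M, hM'⟩ := card_stable_lev.{u} n d hd
  refine ⟨2 ^ M * (N₁ + 2 * N₃ d + 2), ?_⟩
  intro p hpf hp k L Om _ _ _ _ _ _ _ _ _ _ _ _ _ hn P R hP hR hco hlat hiso S hS
  have hdL : (d : L) ≠ 0 := by
    intro h3
    rw [CharP.cast_eq_zero_iff L p] at h3
    have := Nat.le_of_dvd (by omega) h3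
    omega
  haveI : ExpChar L p := ExpChar.prime hpf.out
  exact hM' p k L hn (NLat Om d) (fun P R P₁ R₁ s m lam ν g1 g2 g3 g4 g5 g6 g7 g8 g9 =>
      nlat_step p d hd hdL P R P₁ R₁ s m lam ν g1 g2 g4 g5 g6 g7 g8 g9) N₁
    (fun P R g1 g2 g3 g4 g5 S g6 g7 => hLL p (by omega) k L Om hn P R g1 g2 g3 g4 g5 S g6 g7)
    P R hP hR hco hlat hiso S hS

theorem card_L (hM : S_MCM.{u}) (n d : ℕ) (hd : 2 ≤ d) : ∃ B P0 : ℕ,
    ∀ (p : ℕ) [Fact p.Prime] (hp : P0 < p) (k L Om : Type u) [Field k] [IsAlgClosed k]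
    [CharP k p] [Field L] [CharP L p] [Algebra k L] [Algebra (RatFunc k) L]
    [IsScalarTower k (RatFunc k) L] [FiniteDimensional (RatFunc k) L]
    [Algebra.IsSeparable (RatFunc k) L] [Field Om] [IsAlgClosed Om] [Algebra L Om],
    Module.finrank (RatFunc k) L ≤ n → ∀ P R : L[X], P.natDegree ≤ d → R.natDegree = d →
    IsCoprime P R → NLat Om d P R → ¬ ConjConst k P R d → ∀ S : Finset L,
    (∀ z ∈ S, R.eval z ≠ 0 ∧ P.eval z / R.eval z ∈ S) → S.card ≤ B := by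
  obtain ⟨P0, h⟩ := card_L'.{u} hM d hd
  obtain ⟨B, hB⟩ := h n
  exact ⟨B, P0, hB⟩

end Pool.Agent.E8helper71.CP.Few
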