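import Pool.Agent.E8helper65.CM.Alg
import Pool.Agent.Y195.CH.AFC
import Pool.Agent.E8helper71.CP.Few2

/-!
# The conjugation `cP`, `cQ` in homogeneous form; Lattes maps and Frobenius
-/

namespace Pool.Agent.E8helper71.CP.Few

open Polynomial Finset
open Pool.Agent.W277.UH Pool.Agent.Y706.CH Pool.Agent.Y195.CH Pool.Agent.Y676.CH
open Pool.Agent.E8helper88.Mul
open Pool.Agent.TH951.P (cP cQ La mb cr)

universe u v

section

variable {K : Type u} [Field K]

lemma hev_addF (d : ℕ) (p q : K[X]) (Z : K × K) : hev d (p + q) Z = hev d p Z + hev d q Z := by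
  unfold hev
  rw [← Finset.sum_add_distrib]
  apply Finset.sum_congr rfl
  intro i _
  rw [coeff_add]
  ring

/-- composition with the inverse affine map -/
lemma hev_La (d : ℕ) (g : K[X]) (hg : g.natDegree ≤ d) (lam ν : K) (hlam : lam ≠ 0) (Y Z : K) :
    hev d (g.comp (La lam ν)) (ν * Z + lam * Y, Z) = hev d g (Y, Z) := by
  have hdeg : (g.comp (La lam ν)).natDegree ≤ d := by
    rw [natDegree_comp, Pool.Agent.TH951.P.La_degree lam ν hlam, mul_one]
    exact hg
  by_cases hZ : Z = 0
  · subst hZ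
    rw [mul_zero, zero_add, hev_zero, hev_zero]
    rcases hg.lt_or_eq with h | h
    · rw [coeff_eq_zero_of_natDegree_lt h, coeff_eq_zero_of_natDegree_lt (by
        rw [natDegree_comp, Pool.Agent.TH951.P.La_degree lam ν hlam, mul_one]
        exact h)]
      ring
    · have h1 : (g.comp (La lam ν)).coeff d = g.coeff d * (lam⁻¹) ^ d := by
        have h2 := Pool.Agent.TH951.P.La_degree lam ν hlam
        have h3 := coeff_comp_degree_mul_degree (p := g) (q := La lam ν) (by rw [h2]; omega)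
        rw [h2, mul_one, h] at h3
        rw [h3, leadingCoeff, h]
        congr 1
        have h4 : (La lam ν).leadingCoeff = lam⁻¹ := by
          unfold La
          rw [leadingCoeff_mul, leadingCoeff_C, leadingCoeff_X_sub_C, mul_one]
        rw [h4]
      rw [h1, mul_pow]
      have : (lam⁻¹) ^ d * lam ^ d = 1 := by
        rw [← mul_pow, inv_mul_cancel₀ hlam, one_pow]
      linear_combination (g.coeff d * Y ^ d) * this
  · rw [hev_eval d _ hdeg _ hZ, hev_eval d _ hg _ hZ, eval_comp, Pool.Agent.TH951.P.La_eval]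
    have : lam⁻¹ * ((ν * Z + lam * Y, Z) : K × K).1 / ((ν * Z + lam * Y, Z) : K × K).2 =
      lam⁻¹ * ((ν * Z + lam * Y) / Z) := by ring
    have h2 : lam⁻¹ * ((ν * Z + lam * Y) / Z - ν) = Y / Z := by
      field_simp
      ring
    simp only
    rw [h2]

/-- the conjugation in homogeneous form -/
lemma cj_mob (d : ℕ) (p q : K[X]) (hp : p.natDegree ≤ d) (hq : q.natDegree ≤ d)
    (s m lam ν : K) (hs : s ≠ 0) (hlam : lam ≠ 0) :
    CjF d p q (cP d s m lam ν p q) (cQ d s m lam ν p q) := by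
  have hpq : (p - C m * q).natDegree ≤ d :=
    (natDegree_sub_le _ _).trans (max_le hp ((natDegree_C_mul_le _ _).trans hq))
  refine ⟨ν, lam - ν * m, 1, -m, s, ?_, hs, ?_⟩
  · have : ν * -m - (lam - ν * m) * 1 = -lam := by ring
    rw [this]
    exact neg_ne_zero.mpr hlam
  · intro Z
    have hPh : Ph ν (lam - ν * m) 1 (-m) Z = (ν * (Z.1 - m * Z.2) + lam * Z.2, Z.1 - m * Z.2) := by
      unfold Ph
      refine Prod.ext ?_ ?_
      · simp only
        ring
      · simp only
        ring
    have key : ∀ g : K[X], g.natDegree ≤ d →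
        hev d ((pc d g m).comp (La lam ν)) (Ph ν (lam - ν * m) 1 (-m) Z) = hev d g Z := by
      intro g hg
      rw [hPh, hev_La d _ (pc_degree d g m) lam ν hlam]
      exact hev_mv d g hg m Z
    have e1 : hev d (cQ d s m lam ν p q) (Ph ν (lam - ν * m) 1 (-m) Z) =
        s * (hev d p Z - m * hev d q Z) := by
      have h1 : cQ d s m lam ν p q = C s * (pc d (p - C m * q) m).comp (La lam ν) := rfl
      rw [h1, hev_C_mul, key _ hpq, Pool.Agent.Y195.CH.hev_sub]
    have e2 : hev d (cP d s m lam ν p q) (Ph ν (lam - ν * m) 1 (-m) Z) =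
        s * (lam * hev d q Z + ν * (hev d p Z - m * hev d q Z)) := by
      have h1 : cP d s m lam ν p q = C s * (C lam * (pc d q m).comp (La lam ν) +
        C ν * (pc d (p - C m * q) m).comp (La lam ν)) := rfl
      rw [h1, hev_C_mul, hev_addF, hev_C_mul, hev_C_mul, key _ hpq, key _ hq,
        Pool.Agent.Y195.CH.hev_sub]
    have e3 : FH d (cP d s m lam ν p q) (cQ d s m lam ν p q) (Ph ν (lam - ν * m) 1 (-m) Z) =
      (hev d (cP d s m lam ν p q) (Ph ν (lam - ν * m) 1 (-m) Z),
        hev d (cQ d s m lam ν p q) (Ph ν (lam - ν * m) 1 (-m) Z)) := rfl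
    rw [e3, e1, e2]
    unfold Ph FH
    refine Prod.ext ?_ ?_
    · simp only [Prod.smul_fst, smul_eq_mul]
      ring
    · simp only [Prod.smul_snd, smul_eq_mul]
      ring

/-- Frobenius twists of Lattes maps -/
lemma latF_frob [IsAlgClosed K] (p : ℕ) [Fact p.Prime] [CharP K p] [ExpChar K p] (d : ℕ)
    (u w : K[X]) (h : LatF d u w) : LatF d (u.map (frobenius K p)) (w.map (frobenius K p)) := by
  obtain ⟨a, A, B, hA, hB, hAd, hBd, h⟩ := h
  set φ := frobenius K p with hφ
  have hsurj : Function.Surjective φ := by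
    intro x
    obtain ⟨y, hy⟩ := IsAlgClosed.exists_pow_nat_eq x (Fact.out : p.Prime).pos
    exact ⟨y, hy⟩
  refine ⟨a, A.map φ, B.map φ, (Polynomial.map_ne_zero_iff φ.injective).mpr hA,
    (Polynomial.map_ne_zero_iff φ.injective).mpr hB, natDegree_map_le.trans hAd,
    natDegree_map_le.trans hBd, ?_⟩
  intro Z
  obtain ⟨Z1, hZ1⟩ := hsurj Z.1
  obtain ⟨Z2, hZ2⟩ := hsurj Z.2
  have hZ : Z = vh φ (Z1, Z2) := by
    unfold vh
    exact Prod.ext hZ1.symm hZ2.symm
  rw [hZ, FH_hom, WH_hom, hev_hom, hev_hom, hev_hom, hev_hom, ← map_pow, ← map_mul, ← map_mul, h,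
    map_mul, map_mul, map_natCast]

end

/-- the predicate: not a Lattes map over `Om` -/
def NLat {L : Type u} (Om : Type v) [Field L] [Field Om] [Algebra L Om] (d : ℕ) (P R : L[X]) :
    Prop := ¬ LatF d (P.map (algebraMap L Om)) (R.map (algebraMap L Om))

lemma nlat_step {L : Type u} {Om : Type v} [Field L] [Field Om] [IsAlgClosed Om] [Algebra L Om]
    (p : ℕ) [Fact p.Prime] [CharP L p] [ExpChar L p] (d : ℕ) (hd : 2 ≤ d) (hd0 : (d : L) ≠ 0)
    (P R P₁ R₁ : L[X]) (s m lam ν : L) (hP : P.natDegree ≤ d) (hR : R.natDegree = d)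
    (hs : s ≠ 0) (hlam : lam ≠ 0) (hm : P.eval m ≠ m * R.eval m)
    (hcP : cP d s m lam ν P R = P₁.map (frobenius L p))
    (hcQ : cQ d s m lam ν P R = R₁.map (frobenius L p)) (h : NLat Om d P R) : NLat Om d P₁ R₁ := by
  intro hl
  apply h
  haveI : CharP Om p := (RingHom.charP_iff (algebraMap L Om) (algebraMap L Om).injective p).mp
    inferInstance
  haveI : ExpChar Om p := ExpChar.prime (Fact.out : p.Prime)
  have hinf : Infinite Om := IsAlgClosed.instInfinite
  set ι := algebraMap L Om with hι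
  have h1 := latF_frob p d _ _ hl
  have hcomm : ∀ g : L[X], (g.map (frobenius L p)).map ι = (g.map ι).map (frobenius Om p) := by
    intro g
    rw [Polynomial.map_map, Polynomial.map_map]
    congr 1
    ext x
    simp [frobenius_def]
  rw [← hcomm, ← hcomm, ← hcP, ← hcQ, ← Pool.Agent.TH951.P.cP_map,
    ← Pool.Agent.TH951.P.cQ_map] at h1
  have hdO : (d : Om) ≠ 0 := by
    rw [← map_natCast ι]
    exact (_root_.map_ne_zero _).mpr hd0
  have hRd : (R.map ι).natDegree = d := by rw [natDegree_map, hR]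
  have hPd : (P.map ι).natDegree ≤ d := natDegree_map_le.trans hP
  have hs' : ι s ≠ 0 := (_root_.map_ne_zero _).mpr hs
  have hlam' : ι lam ≠ 0 := (_root_.map_ne_zero _).mpr hlam
  have hm' : (P.map ι).eval (ι m) ≠ ι m * (R.map ι).eval (ι m) := by
    rw [eval_map_apply, eval_map_apply, ← map_mul]
    exact fun h => hm (ι.injective h)
  refine Pool.Agent.E8helper65.CM.latF_conj d hd hdO (P.map ι) (R.map ι) _ _ ?_ ?_
    (cj_mob d _ _ hPd hRd.le (ι s) (ι m) (ι lam) (ι ν) hs' hlam') h1
  · rw [hRd]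
    exact max_eq_right hPd
  · rw [Pool.Agent.TH951.P.cQ_degree hPd hRd.le hs' hlam' hm']
    exact max_eq_right (Pool.Agent.TH951.P.cP_degree hlam')

end Pool.Agent.E8helper71.CP.Few
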