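import Pool.Agent.TH951.W.UH.G2
import Pool.Agent.W277.UG.D8

/-!
# Preliminaries for the port to all characteristics
-/

namespace Pool.Agent.E8helper71.CP

open Pool.Agent.TH951.W.UB Pool.Agent.TH951.W.UG Pool.Agent.TH951.W.UH Finset Polynomial

universe u v w

/-- infinitely many residue classes -/
def NC (Ω : Type u) [NormedField Ω] : Prop :=
  ∃ c : ℕ → Ω, (∀ i, ‖c i‖ ≤ 1) ∧ ∀ i j, i ≠ j → ‖c i - c j‖ = 1

lemma exists_fam {Ω : Type u} [NormedField Ω] [IsUltrametricDist Ω] (h : NC Ω) :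
    ∃ _ : Fam Ω, True := by
  obtain ⟨c, h1, h2⟩ := h
  refine ⟨⟨fun i => (c i, 1), fun i => norm_pair_one (h1 i), fun i j hij => ?_⟩, trivial⟩
  unfold wd
  simp only [mul_one, one_mul]
  exact h2 i j hij

lemma prod_zero' {k K : Type*} [Field k] [Field K] [Algebra k K] (Q : PlaceData k K)
    (S : Finset Q.Pl) (x : K) (hx : x ≠ 0)
    (hS : ∀ v, v ∉ S → Q.ord v x = 0) : ∑ v ∈ S, (Q.wt v : ℝ) * Q.ord v x = 0 := by
  have := prod_zero Q S x hx hS
  exact_mod_cast this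

end Pool.Agent.E8helper71.CP
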